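import Pool.Agent.H57.Q1.Flow
import Pool.Agent.H49.Perc.KArms

set_option autoImplicit false
open Finset

/-! # Strands of an exploration path and disjoint arms

* `Seq Q k N` : `k` successive index intervals `[a,b]` with `Q a b` before the time `N`.
* `pr c` : the corner on the other side of the next edge `plab c`, at its other end.
* `open_arms`, `dual_arms` : `k` strands of the orbit of `pv L` from the inside to the outside of an
  annulus whose open (closed) labels all belong to `ω` (`E`) give `k` disjoint open (dual) arms. -/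

namespace Pool.Agent.H57.Q1

open Pool.Agent.H57.Flow
open Pool.Agent.H75.Perc Pool.Agent.H75.TwoArm Pool.Agent.H49.Perc

/-! ### Sequences of index intervals -/

/-- `k` successive index intervals with the property `Q`, before the time `N` -/
def Seq (Q : ℕ → ℕ → Prop) : ℕ → ℕ → Prop
  | 0, _ => True
  | k + 1, N => ∃ a b, a < b ∧ b ≤ N ∧ Q a b ∧ Seq Q k a

namespace Seq

variable {Q Q' : ℕ → ℕ → Prop} {k l N N' : ℕ}

lemma mono_N (h : N ≤ N') (hs : Seq Q k N) : Seq Q k N' := by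
  cases k with
  | zero => trivial
  | succ k =>
    obtain ⟨a, b, h1, h2, h3, h4⟩ := hs
    exact ⟨a, b, h1, h2.trans h, h3, h4⟩

/-- pass to sub-intervals -/
lemma sub (h : ∀ a b, a < b → b ≤ N → Q a b → ∃ a' b', a ≤ a' ∧ a' < b' ∧ b' ≤ b ∧ Q' a' b')
    (hs : Seq Q k N) : Seq Q' k N := by
  induction k generalizing N with
  | zero => trivial
  | succ k ih =>
    obtain ⟨a, b, h1, h2, h3, h4⟩ := hs
    obtain ⟨a', b', h5, h6, h7, h8⟩ := h a b h1 h2 h3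
    exact ⟨a', b', h6, h7.trans h2, h8,
      mono_N h5 (ih (fun u v huv hv => h u v huv (hv.trans (h1.le.trans h2))) h4)⟩

lemma imp (h : ∀ a b, a < b → b ≤ N → Q a b → Q' a b) (hs : Seq Q k N) : Seq Q' k N :=
  sub (fun a b h1 h2 h3 => ⟨a, b, le_rfl, h1, le_rfl, h a b h1 h2 h3⟩) hs

lemma le (h : l ≤ k) (hs : Seq Q k N) : Seq Q l N := by
  induction k generalizing N l with
  | zero => obtain rfl : l = 0 := by omega
            trivial
  | succ k ih =>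
    cases l with
    | zero => trivial
    | succ l =>
      obtain ⟨a, b, h1, h2, h3, h4⟩ := hs
      exact ⟨a, b, h1, h2, h3, ih (by omega) h4⟩

/-- distribute the intervals over finitely many types -/
lemma choose {ι : Type*} [DecidableEq ι] (s : Finset ι) {P : ι → ℕ → ℕ → Prop}
    (hs : Seq (fun a b => ∃ i ∈ s, P i a b) k N) :
    ∃ κ : ι → ℕ, ∑ i ∈ s, κ i = k ∧ ∀ i ∈ s, Seq (P i) (κ i) N := by
  induction k generalizing N with
  | zero => exact ⟨fun _ => 0, by simp, fun _ _ => trivial⟩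
  | succ k ih =>
    obtain ⟨a, b, h1, h2, ⟨i, hi, h3⟩, h4⟩ := hs
    obtain ⟨κ, h5, h6⟩ := ih h4
    refine ⟨Function.update κ i (κ i + 1), ?_, ?_⟩
    · rw [sum_update_of_mem hi, ← h5, ← add_sum_erase s κ hi]
      have : s \ {i} = s.erase i := by rw [erase_eq]
      rw [this]; ring
    · intro j hj
      by_cases hji : j = i
      · subst hji
        rw [Function.update_self]
        exact ⟨a, b, h1, h2, h3, h6 j hj⟩
      · rw [Function.update_of_ne hji]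
        exact mono_N (h1.le.trans h2) (h6 j hj)

/-- pigeonhole -/
lemma pigeon {ι : Type*} [DecidableEq ι] {s : Finset ι} {P : ι → ℕ → ℕ → Prop} {m : ℕ}
    (hk : s.card * m ≤ k) (hk0 : 0 < k) (hs : Seq (fun a b => ∃ i ∈ s, P i a b) k N) :
    ∃ i ∈ s, Seq (P i) m N := by
  obtain ⟨κ, h1, h2⟩ := choose s hs
  by_contra hcon
  push Not at hcon
  have h3 : ∀ i ∈ s, κ i < m := by
    intro i hi
    by_contra h4
    exact hcon i hi (le (not_lt.1 h4) (h2 i hi))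
  rcases s.eq_empty_or_nonempty with rfl | hne
  · simp at h1; omega
  · have h4 := sum_lt_sum_of_nonempty hne h3
    rw [sum_const, smul_eq_mul] at h4
    omega

end Seq

/-! ### The opposite corner -/

/-- the corner on the other side of the edge `plab c`, at its other end -/
def pr (c : ℤ × ℤ) : ℤ × ℤ := (2 * (plab c).1 + 1 - c.1, 2 * (plab c).2 + 1 - c.2)

lemma pr_cases (c : ℤ × ℤ) :
    (c.1 % 2 = 0 ∧ c.2 % 2 = 0 ∧ plab c = (c.1 - 1, c.2) ∧ pr c = (c.1 - 1, c.2 + 1)) ∨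
    (c.1 % 2 = 1 ∧ c.2 % 2 = 0 ∧ plab c = (c.1 - 1, c.2 - 1) ∧ pr c = (c.1 - 1, c.2 - 1)) ∨
    (c.1 % 2 = 0 ∧ c.2 % 2 = 1 ∧ plab c = (c.1, c.2) ∧ pr c = (c.1 + 1, c.2 + 1)) ∨
    (c.1 % 2 = 1 ∧ c.2 % 2 = 1 ∧ plab c = (c.1, c.2 - 1) ∧ pr c = (c.1 + 1, c.2 - 1)) := by
  have h1 : c.1 % 2 = 0 ∨ c.1 % 2 = 1 := by omega
  have h2 : c.2 % 2 = 0 ∨ c.2 % 2 = 1 := by omega
  rcases h1 with h1 | h1 <;> rcases h2 with h2 | h2
  · refine Or.inl ⟨h1, h2, ?_, ?_⟩ <;> simp only [pr, plab, h1, h2] <;> ext <;> simp <;> ring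
  · refine Or.inr (Or.inr (Or.inl ⟨h1, h2, ?_, ?_⟩)) <;> simp only [pr, plab, h1, h2] <;> ext <;>
      simp <;> ring
  · refine Or.inr (Or.inl ⟨h1, h2, ?_, ?_⟩) <;> simp only [pr, plab, h1, h2] <;> ext <;> simp <;>
      ring
  · refine Or.inr (Or.inr (Or.inr ⟨h1, h2, ?_, ?_⟩)) <;> simp only [pr, plab, h1, h2] <;> ext <;>
      simp <;> ring

lemma plab_pr (c : ℤ × ℤ) : plab (pr c) = plab c := by
  rcases pr_cases c with ⟨h1, h2, h3, h4⟩ | ⟨h1, h2, h3, h4⟩ | ⟨h1, h2, h3, h4⟩ | ⟨h1, h2, h3, h4⟩ <;>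
  rcases pr_cases (pr c) with ⟨h1', h2', h3', h4'⟩ | ⟨h1', h2', h3', h4'⟩ | ⟨h1', h2', h3', h4'⟩ |
    ⟨h1', h2', h3', h4'⟩ <;> rw [h3', h3] <;> rw [h4] at h1' h2' ⊢ <;> simp only at h1' h2' ⊢ <;>
    first | (exfalso; omega) | (ext <;> simp only <;> omega)

lemma pr_pr (c : ℤ × ℤ) : pr (pr c) = c := by
  have h := plab_pr c
  unfold pr at h ⊢
  rw [h]
  ext <;> simp only <;> omega

lemma pr_ne (c : ℤ × ℤ) : pr c ≠ c := by
  intro h
  have := congrArg Prod.fst h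
  unfold pr at this
  simp only at this
  omega

/-- the two corners of an edge -/
lemma eq_or_pr {c c' : ℤ × ℤ} (h : plab c = plab c') : c' = c ∨ c' = pr c := by
  rcases pr_cases c with ⟨h1, h2, h3, h4⟩ | ⟨h1, h2, h3, h4⟩ | ⟨h1, h2, h3, h4⟩ | ⟨h1, h2, h3, h4⟩ <;>
  rcases pr_cases c' with ⟨h1', h2', h3', -⟩ | ⟨h1', h2', h3', -⟩ | ⟨h1', h2', h3', -⟩ |
    ⟨h1', h2', h3', -⟩ <;> rw [h3, h3'] at h <;> simp only [Prod.ext_iff] at h ⊢ <;> rw [h4] <;>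
    simp only <;> omega

lemma vx_add_vx_pr (c : ℤ × ℤ) : vx c + vx (pr c) = plab c ∧ IsUnit4 (vx (pr c) - vx c) := by
  rcases pr_cases c with ⟨h1, h2, h3, h4⟩ | ⟨h1, h2, h3, h4⟩ | ⟨h1, h2, h3, h4⟩ | ⟨h1, h2, h3, h4⟩ <;>
  rw [h3, h4] <;> unfold IsUnit4 vx <;>
  simp only [Prod.ext_iff, Prod.fst_add, Prod.snd_add, Prod.fst_sub, Prod.snd_sub] <;> omega

lemma fi_add_fi_pr (c : ℤ × ℤ) : fi c + fi (pr c) = sh1 (plab c) ∧ IsUnit4 (fi (pr c) - fi c) := by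
  rcases pr_cases c with ⟨h1, h2, h3, h4⟩ | ⟨h1, h2, h3, h4⟩ | ⟨h1, h2, h3, h4⟩ | ⟨h1, h2, h3, h4⟩ <;>
  rw [h3, h4] <;> unfold IsUnit4 fi sh1 <;>
  simp only [Function.Embedding.coeFn_mk, Prod.ext_iff, Prod.fst_add, Prod.snd_add, Prod.fst_sub,
    Prod.snd_sub] <;> omega

/-- one step of `pv` along an open edge -/
lemma vx_pv_open {L : Finset (ℤ × ℤ)} {c : ℤ × ℤ} (h : plab c ∈ L) :
    vx (pv L c) = vx (pr c) := by
  rcases pr_cases c with ⟨h1, h2, h3, h4⟩ | ⟨h1, h2, h3, h4⟩ | ⟨h1, h2, h3, h4⟩ | ⟨h1, h2, h3, h4⟩ <;>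
  rw [h3] at h <;> rw [h4] <;> unfold pv vx <;> simp only [h1, h2, h, if_true, if_false,
    one_ne_zero] <;> ext <;> simp only <;> omega

lemma fi_pv_open {L : Finset (ℤ × ℤ)} {c : ℤ × ℤ} (h : plab c ∈ L) : fi (pv L c) = fi c := by
  rcases pr_cases c with ⟨h1, h2, h3, h4⟩ | ⟨h1, h2, h3, h4⟩ | ⟨h1, h2, h3, h4⟩ | ⟨h1, h2, h3, h4⟩ <;>
  rw [h3] at h <;> unfold pv fi <;> simp only [h1, h2, h, if_true, if_false,
    one_ne_zero] <;> ext <;> simp only <;> omega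

lemma fi_pv_closed {L : Finset (ℤ × ℤ)} {c : ℤ × ℤ} (h : plab c ∉ L) :
    fi (pv L c) = fi (pr c) := by
  rcases pr_cases c with ⟨h1, h2, h3, h4⟩ | ⟨h1, h2, h3, h4⟩ | ⟨h1, h2, h3, h4⟩ | ⟨h1, h2, h3, h4⟩ <;>
  rw [h3] at h <;> rw [h4] <;> unfold pv fi <;> simp only [h1, h2, h, if_true, if_false,
    one_ne_zero] <;> ext <;> simp only <;> omega

lemma vx_pv_closed {L : Finset (ℤ × ℤ)} {c : ℤ × ℤ} (h : plab c ∉ L) : vx (pv L c) = vx c := by
  rcases pr_cases c with ⟨h1, h2, h3, h4⟩ | ⟨h1, h2, h3, h4⟩ | ⟨h1, h2, h3, h4⟩ | ⟨h1, h2, h3, h4⟩ <;>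
  rw [h3] at h <;> unfold pv vx <;> simp only [h1, h2, h, if_true, if_false,
    one_ne_zero] <;> ext <;> simp only <;> omega

/-! ### Disjoint arms -/

open Classical in
/-- The darts of `k` strands: `z t` corner, `φ t` vertex (face) at the time `t`, `op t` : the step
at the time `t` is a dart. -/
lemma seq_darts {V : Type*} {tl hd : ℤ × ℤ → V} {z : ℕ → ℤ × ℤ} {φ : ℕ → V} {op : ℕ → Prop}
    (h1 : ∀ t, op t → tl (z t) = φ t ∧ hd (z t) = φ (t + 1))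
    (h2 : ∀ t, ¬ op t → φ (t + 1) = φ t) {Q : ℕ → ℕ → Prop} {A B : Set V}
    (hQ : ∀ a b, a < b → Q a b → φ a ∈ A ∧ φ b ∈ B) :
    ∀ (k N : ℕ), (∀ i j, i < N → j < N → z i = z j → i = j) → Seq Q k N →
    ∃ D : Finset (ℤ × ℤ), (∀ c ∈ D, ∃ t < N, z t = c ∧ op t ∧ ∃ a b, Q a b ∧ a ≤ t ∧ t < b) ∧
      ∀ S : Set V, A ⊆ S → Disjoint S B → (k : ℤ) ≤ net tl hd D S := by
  intro k
  induction k with
  | zero => intro N _ _; exact ⟨∅, by simp, fun S _ _ => by simp [net]⟩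
  | succ k ih =>
    rintro N hN ⟨a, b, hab, hbN, hq, hs⟩
    obtain ⟨D, hD1, hD2⟩ := ih a (fun i j hi hj => hN i j (by omega) (by omega)) hs
    have hinj : Set.InjOn z ((Ico a b).filter op : Finset ℕ) := by
      intro i hi j hj hij
      rw [mem_coe, mem_filter, mem_Ico] at hi hj
      exact hN i j (by omega) (by omega) hij
    have hdis : Disjoint D (((Ico a b).filter op).image z) := by
      rw [disjoint_left]
      intro c hc hc'
      obtain ⟨t, ht, rfl, -⟩ := hD1 c hc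
      obtain ⟨t', ht', h⟩ := mem_image.1 hc'
      rw [mem_filter, mem_Ico] at ht'
      have := hN t' t (by omega) (by omega) h
      omega
    refine ⟨D ∪ ((Ico a b).filter op).image z, ?_, ?_⟩
    · intro c hc
      rcases mem_union.1 hc with hc | hc
      · obtain ⟨t, ht, h3⟩ := hD1 c hc
        exact ⟨t, by omega, h3⟩
      · obtain ⟨t, ht, rfl⟩ := mem_image.1 hc
        rw [mem_filter, mem_Ico] at ht
        exact ⟨t, by omega, rfl, ht.2, a, b, hq, ht.1⟩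
    · intro S hS hSB
      have h3 := hD2 S hS hSB
      have h4 : net tl hd (D ∪ ((Ico a b).filter op).image z) S =
          net tl hd D S + net tl hd (((Ico a b).filter op).image z) S := sum_union hdis
      have h5 : net tl hd (((Ico a b).filter op).image z) S = 1 := by
        unfold net
        rw [sum_image hinj, sum_filter]
        have h6 : ∀ t ∈ Ico a b, (if op t then ind S (tl (z t)) - ind S (hd (z t)) else 0) =
            ind S (φ t) - ind S (φ (t + 1)) := by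
          intro t _
          by_cases h : op t
          · rw [if_pos h, (h1 t h).1, (h1 t h).2]
          · rw [if_neg h, h2 t h]; ring
        rw [sum_congr rfl h6]
        have h7 : ∑ t ∈ Ico a b, (ind S (φ t) - ind S (φ (t + 1))) = ind S (φ a) - ind S (φ b) := by
          have h8 := Finset.sum_Ico_sub (fun t => ind S (φ t)) hab.le
          have h9 : ∑ t ∈ Ico a b, (ind S (φ t) - ind S (φ (t + 1))) =
              - ∑ t ∈ Ico a b, (ind S (φ (t + 1)) - ind S (φ t)) := by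
            rw [← sum_neg_distrib]
            exact sum_congr rfl fun t _ => by ring
          rw [h9, h8]; ring
        rw [h7, ind_pos (hS (hQ a b hab hq).1),
          ind_neg (fun h => Set.disjoint_left.1 hSB h (hQ a b hab hq).2)]
        ring
      rw [h4, h5]
      push_cast
      linarith

/-- `k` strands with disjoint corners give `k` disjoint sets of labels with an arm. -/
lemma arms_of_seq {fr : ℤ × ℤ → ℤ × ℤ} {lb : ℤ × ℤ → ℤ × ℤ}
    (hlb : ∀ c, fr c + fr (pr c) = lb c ∧ IsUnit4 (fr (pr c) - fr c))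
    (hinj : ∀ c c', lb c = lb c' → plab c = plab c')
    {z : ℕ → ℤ × ℤ} {op : ℕ → Prop}
    (h1 : ∀ t, op t → fr (z (t + 1)) = fr (pr (z t)))
    (h2 : ∀ t, ¬ op t → fr (z (t + 1)) = fr (z t)) {Q : ℕ → ℕ → Prop}
    {x : ℤ × ℤ} {ρ M : ℤ} {ω : Finset (ℤ × ℤ)}
    (hQ : ∀ a b, a < b → Q a b → (|(fr (z a)).1 - x.1| ≤ ρ ∧ |(fr (z a)).2 - x.2| ≤ ρ) ∧
      (M ≤ |(fr (z b)).1 - x.1| ∨ M ≤ |(fr (z b)).2 - x.2|))
    (hω : ∀ a b, Q a b → ∀ t, a ≤ t → t < b → op t → lb (z t) ∈ ω)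
    {k N : ℕ} (hN : ∀ i j, i < N → j < N → z i = z j → i = j) (hs : Seq Q k N) :
    Arms k (Arm1 x ρ M) ω := by
  obtain ⟨D, hD1, hD2⟩ := seq_darts (tl := fr) (hd := fun c => fr (pr c)) (z := z)
    (φ := fun t => fr (z t)) (op := op) (fun t ht => ⟨rfl, (h1 t ht).symm⟩) h2
    (A := {v | |v.1 - x.1| ≤ ρ ∧ |v.2 - x.2| ≤ ρ}) (B := {v | M ≤ |v.1 - x.1| ∨ M ≤ |v.2 - x.2|})
    hQ k N hN hs
  have hD3 : ∀ S : Set (ℤ × ℤ), {v : ℤ × ℤ | |v.1 - x.1| ≤ ρ ∧ |v.2 - x.2| ≤ ρ} ⊆ S →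
      Disjoint S {v : ℤ × ℤ | M ≤ |v.1 - x.1| ∨ M ≤ |v.2 - x.2|} →
      (k : ℤ) ≤ net fr (fun c => fr (pr c)) (D.filter fun c => pr c ∉ D) S := by
    intro S hS hSB
    rw [net_cancel fr (fun c => fr (pr c)) pr pr_pr pr_ne (fun c _ _ => ⟨rfl, by
      simp only [pr_pr]⟩)]
    exact hD2 S hS hSB
  obtain ⟨P, hP1, hP2, hP3⟩ := flow_paths fr (fun c => fr (pr c)) _ _ k _ hD3
  refine ⟨fun i => (P i).image lb, ?_, ?_, ?_⟩
  · intro i
    rw [image_subset_iff]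
    intro c hc
    obtain ⟨t, ht, rfl, hop, a, b, hq, h3⟩ := hD1 c (mem_filter.1 (hP1 i hc)).1
    exact hω a b hq t h3.1 h3.2 hop
  · intro i j hij
    rw [disjoint_left]
    intro e he he'
    obtain ⟨c, hc, rfl⟩ := mem_image.1 he
    obtain ⟨c', hc', h⟩ := mem_image.1 he'
    rcases eq_or_pr (hinj _ _ h.symm) with h3 | h3
    · subst h3
      exact disjoint_left.1 (hP2 i j hij) hc hc'
    · have h4 := mem_filter.1 (hP1 i hc)
      have h5 := mem_filter.1 (hP1 j hc')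
      rw [h3] at h5
      exact h4.2 h5.1
  · intro i
    obtain ⟨u, hu, v, hv, h⟩ := hP3 i
    refine ⟨u, v, hu.1, hu.2, hv, ?_⟩
    refine Relation.ReflTransGen.mono ?_ _ _ h
    rintro y y' ⟨c, hc, rfl, rfl⟩
    exact ⟨(hlb c).2, by rw [(hlb c).1]; exact mem_image_of_mem _ hc⟩

/-- **`k` strands whose open labels all belong to `ω` give `k` disjoint open arms.** -/
theorem open_arms {L ω : Finset (ℤ × ℤ)} {c : ℤ × ℤ} {Q : ℕ → ℕ → Prop} {x : ℤ × ℤ} {ρ M : ℤ}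
    (hQ : ∀ a b, a < b → Q a b →
      (|(vx ((pv L)^[a] c)).1 - x.1| ≤ ρ ∧ |(vx ((pv L)^[a] c)).2 - x.2| ≤ ρ) ∧
      (M ≤ |(vx ((pv L)^[b] c)).1 - x.1| ∨ M ≤ |(vx ((pv L)^[b] c)).2 - x.2|))
    (hω : ∀ a b, Q a b → ∀ t, a ≤ t → t < b → plab ((pv L)^[t] c) ∈ L → plab ((pv L)^[t] c) ∈ ω)
    {k N : ℕ} (hN : ∀ i j, i < N → j < N → (pv L)^[i] c = (pv L)^[j] c → i = j) (hs : Seq Q k N) :
    Arms k (Arm1 x ρ M) ω := by
  refine arms_of_seq (fr := vx) (lb := plab) (z := fun t => (pv L)^[t] c)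
    (op := fun t => plab ((pv L)^[t] c) ∈ L) vx_add_vx_pr (fun _ _ h => h) ?_ ?_ hQ hω hN hs
  · intro t ht
    simp only [Function.iterate_succ_apply']
    exact vx_pv_open ht
  · intro t ht
    simp only [Function.iterate_succ_apply']
    exact vx_pv_closed ht

/-- **`k` strands whose closed labels all belong to `E` give `k` disjoint dual arms.** -/
theorem dual_arms {L ω E : Finset (ℤ × ℤ)} {c : ℤ × ℤ} {Q : ℕ → ℕ → Prop} {x : ℤ × ℤ} {ρ M : ℤ}
    (hωL : ω ⊆ L)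
    (hQ : ∀ a b, a < b → Q a b →
      (|(fi ((pv L)^[a] c)).1 - x.1| ≤ ρ ∧ |(fi ((pv L)^[a] c)).2 - x.2| ≤ ρ) ∧
      (M ≤ |(fi ((pv L)^[b] c)).1 - x.1| ∨ M ≤ |(fi ((pv L)^[b] c)).2 - x.2|))
    (hE : ∀ a b, Q a b → ∀ t, a ≤ t → t < b → plab ((pv L)^[t] c) ∉ L → plab ((pv L)^[t] c) ∈ E)
    {k N : ℕ} (hN : ∀ i j, i < N → j < N → (pv L)^[i] c = (pv L)^[j] c → i = j) (hs : Seq Q k N) :
    Arms k (Arm1 x ρ M) (du E ω) := by
  refine arms_of_seq (fr := fi) (lb := fun c => sh1 (plab c)) (z := fun t => (pv L)^[t] c)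
    (op := fun t => plab ((pv L)^[t] c) ∉ L) fi_add_fi_pr (fun _ _ h => sh1.injective h) ?_ ?_ hQ
    ?_ hN hs
  · intro t ht
    simp only [Function.iterate_succ_apply']
    exact fi_pv_closed ht
  · intro t ht
    simp only [Function.iterate_succ_apply']
    exact fi_pv_open (not_not.1 ht)
  · intro a b hq t h3 h4 h5
    unfold du
    exact mem_map_of_mem _ (mem_sdiff.2 ⟨hE a b hq t h3 h4 h5, fun h => h5 (hωL h)⟩)

/-- probability of `k` disjoint dual arms -/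
theorem k_arms_dual : ∃ δ : ℝ, 0 < δ ∧ δ < 1 ∧ ∀ (E : Finset (ℤ × ℤ)),
    (∀ e ∈ E, (e.1 + e.2) % 2 = 1) → ∀ (x : ℤ × ℤ) (ρ : ℤ), 1 ≤ ρ → ∀ k n : ℕ,
    Pr E (Arms n (Arm1 x ρ (4 ^ k * ρ))) ≤ (1 - δ) ^ (k * n) ∧
    Pr E (fun ω => Arms n (Arm1 x ρ (4 ^ k * ρ)) (du E ω)) ≤ (1 - δ) ^ (k * n) := by
  obtain ⟨δ, h0, h1, h⟩ := k_arms
  refine ⟨δ, h0, h1, fun E hE x ρ hρ k n => ⟨h E hE x ρ hρ k n, ?_⟩⟩
  rw [Pr_du E (Arms n (Arm1 x ρ (4 ^ k * ρ)))]
  refine h _ ?_ x ρ hρ k n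
  intro e he
  obtain ⟨e', he', rfl⟩ := mem_map.1 he
  have := hE e' he'
  change (e'.1 + 1 + (e'.2 + 1)) % 2 = 1
  omega

end Pool.Agent.H57.Q1
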