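import Pool.Agent.H57.Q1.Explore
import Pool.Agent.H57.Q1.Strands
import Pool.Agent.H81.Q1.Term

set_option autoImplicit false
open Set Filter

/-! # Labels met by the exploration path of a discrete domain

* `wired_met` : an edge of the wired arc met by the path has an end on the wired contour.
* `dual_met` : if the path meets an edge outside the domain, it is on the dual contour.
* `half_apply` : `halfPMF` in terms of `Pr`. -/

namespace Pool.Agent.H57.Q1

open Pool.Agent.H81.Q1
open Pool.Agent.H69.Q1 (lb cor EL WL cor_next_iter arc_sub free_sub coe_WL coe_EL mem_EL mem_WL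
  edges_sub cor_injective plab_cor corner_edge_mem lb_injOn vx_cor DEnv el el_lb lb_el odd_EL)
open Pool.Agent.H75.Perc (pv Pr InOrb vx)
open Pool.Agent.H75.TwoArm (plab fi)
open Pool.Agent.H39.Q1 (LDom Back)

section visit

variable (X : DDomain) {ω : Set (Sym2 (ℤ × ℤ))} {S : Finset (ℤ × ℤ)}

lemma conf_sub (hω : ω ⊆ X.free) : ω ∪ X.arc ⊆ Z2.edgeSet :=
  Set.union_subset (hω.trans ((free_sub X).trans (edges_sub _))) ((arc_sub X).trans (edges_sub _))

lemma coe_conf (hS : (S : Set (ℤ × ℤ)) = lb '' ω) :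
    ((S ∪ WL X : Finset (ℤ × ℤ)) : Set (ℤ × ℤ)) = lb '' (ω ∪ X.arc) := by
  rw [Finset.coe_union, coe_WL, hS, Set.image_union]

lemma cor_corner (hω : ω ⊆ X.free) (hS : (S : Set (ℤ × ℤ)) = lb '' ω) (i : ℕ) :
    cor (X.corner ω i) = (pv (S ∪ WL X))^[i] (cor X.α) :=
  cor_next_iter (conf_sub X hω) (coe_conf X hS) X.α i

lemma sub_EL (hω : ω ⊆ X.free) (hS : (S : Set (ℤ × ℤ)) = lb '' ω) : S ⊆ EL X := by
  intro l hl
  rw [← Finset.mem_coe, hS] at hl
  obtain ⟨e, he, rfl⟩ := hl
  exact (mem_EL X).2 ⟨e, hω he, rfl⟩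

lemma sub_Fr (hω : ω ⊆ X.free) (hS : (S : Set (ℤ × ℤ)) = lb '' ω) : S ⊆ X.toLDom.Fr := by
  rw [Pool.Agent.H81.Q1.toLDom_Fr]
  exact sub_EL X hω hS

lemma len_eq (hω : ω ⊆ X.free) (hS : (S : Set (ℤ × ℤ)) = lb '' ω) :
    X.toDEnv.len S = X.len ω := by
  unfold DEnv.len DDomain.len
  congr 1
  ext i
  simp only [Set.mem_ofPred_eq]
  unfold DEnv.cor
  rw [Pool.Agent.H81.Q1.toDEnv_W, Pool.Agent.H81.Q1.toDEnv_α, Pool.Agent.H81.Q1.toDEnv_β,
    ← cor_corner X hω hS]
  exact cor_injective.eq_iff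

lemma corner_inj (hω : ω ⊆ X.free) {i j : ℕ} (hi : i ≤ X.len ω) (hj : j ≤ X.len ω)
    (h : X.corner ω i = X.corner ω j) : i = j := by
  classical
  have hfin : ω.Finite := X.finite_free.subset hω
  obtain ⟨S, hS⟩ : ∃ S : Finset (ℤ × ℤ), (S : Set (ℤ × ℤ)) = lb '' ω :=
    ⟨(hfin.image lb).toFinset, by rw [Set.Finite.coe_toFinset]⟩
  have h1 : S ⊆ X.toDEnv.E := by
    rw [Pool.Agent.H81.Q1.toDEnv_E]; exact sub_EL X hω hS
  refine X.toDEnv.cor_inj h1 (by rw [len_eq X hω hS]; exact hi) (by rw [len_eq X hω hS]; exact hj) ?_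
  unfold DEnv.cor
  rw [Pool.Agent.H81.Q1.toDEnv_W, Pool.Agent.H81.Q1.toDEnv_α, ← cor_corner X hω hS,
    ← cor_corner X hω hS, h]

/-- An edge of the wired arc met by the path has an end on the wired contour. -/
lemma wired_met {i : ℕ} (h : (X.corner ω i).edge ∈ X.arc) :
    ∃ c ∈ X.wired, c.1 ∈ (X.corner ω i).edge := by
  obtain ⟨-, c, hc, -, he⟩ := h
  exact ⟨c, hc, by rw [he]; unfold Corner.edge; exact Sym2.mem_mk_left _ _⟩

/-- If the path meets an edge outside the domain, it is on the dual contour. -/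
lemma dual_met (hω : ω ⊆ X.free) {i : ℕ} (hi : i ≤ X.len ω)
    (he : (X.corner ω i).edge ∉ X.E) : X.corner ω i ∈ X.dual := by
  classical
  have hfin : ω.Finite := X.finite_free.subset hω
  obtain ⟨S, hS⟩ : ∃ S : Finset (ℤ × ℤ), (S : Set (ℤ × ℤ)) = lb '' ω :=
    ⟨(hfin.image lb).toFinset, by rw [Set.Finite.coe_toFinset]⟩
  set c := X.corner ω i with hc
  have hcV : c.1 ∈ X.V := corner_mem X hω i
  have hout : IsOuter X.E c := X.noHole c hcV he
  have horb := inOrb_outer X X.memα hcV X.outα hout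
  have hex : ∃ m : ℕ, (next X.E)^[m] X.α = c := by
    obtain ⟨m, hm⟩ := horb
    refine ⟨m, cor_injective ?_⟩
    rw [cor_contour]
    exact hm
  set m := Nat.find hex with hm
  have hmc : (next X.E)^[m] X.α = c := Nat.find_spec hex
  have hmin : ∀ k < m, (next X.E)^[k] X.α ≠ c := fun k hk => Nat.find_min hex hk
  by_cases hj : ∀ j < m, (next X.E)^[j] X.α ≠ X.β
  · exact ⟨m, hj, hmc.symm⟩
  exfalso
  push Not at hj
  obtain ⟨j, hjm, hjβ⟩ := hj
  -- the corner is strictly behind `β`
  have h1 : (next X.E)^[m - j] X.β = c := by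
    rw [← hjβ, ← Function.iterate_add_apply, Nat.sub_add_cancel hjm.le, hmc]
  have h2 : ∀ k ≤ m - j, (next X.E)^[k] X.β ≠ X.α := by
    intro k hk hkα
    have h3 : (next X.E)^[k + j] X.α = X.α := by
      rw [Function.iterate_add_apply, hjβ, hkα]
    have h4 : (next X.E)^[m - (k + j)] X.α = c := by
      have h5 := hmc
      rw [← Nat.sub_add_cancel (show k + j ≤ m by omega), Function.iterate_add_apply, h3] at h5
      exact h5
    rcases Nat.eq_zero_or_pos (k + j) with h6 | h6
    · have h7 : k = 0 := by omega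
      subst h7
      have h8 : X.β = X.α := hkα
      exact X.ne (by rw [h8])
    · exact hmin _ (by omega) h4
  have h3 : Back (S ∪ X.toLDom.Wd) X.toLDom.α X.toLDom.β (cor c) := by
    rw [X.toLDom.back_iff (sub_Fr X hω hS)]
    refine ⟨m - j, by omega, ?_, ?_⟩
    · rw [X.toLDom.lt_m_iff]
      intro k hk h4
      refine h2 k hk (cor_injective ?_)
      rw [cor_contour]
      exact h4
    · have h4 := cor_contour X X.β (m - j)
      rw [h1] at h4
      exact h4.symm
  have h4 : X.toDEnv.Visited S (cor c) := by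
    refine ⟨i, by rw [len_eq X hω hS]; exact hi, ?_⟩
    unfold DEnv.cor
    rw [Pool.Agent.H81.Q1.toDEnv_W, Pool.Agent.H81.Q1.toDEnv_α, ← cor_corner X hω hS]
  have h5 := (X.toDEnv.visited_iff (ω := S)
    (by rw [Pool.Agent.H81.Q1.toDEnv_E]; exact sub_EL X hω hS) X.toLDom.ne).1 h4
  exact h5.2 h3

end visit

/-! ### `halfPMF` and `Pr` -/

lemma halfPMF_apply {ι : Type} [DecidableEq ι] (E : Set ι) (hE : E.Finite) (T : Set (Set ι)) :
    (halfPMF E hE).toOuterMeasure T = ENNReal.ofReal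
      (Pr hE.toFinset (fun s : Finset ι => ((s : Set ι) : Set ι) ∈ T)) := by
  classical
  unfold halfPMF
  rw [PMF.toOuterMeasure_map_apply]
  refine (PMF.toOuterMeasure_uniformOfFinset_apply _ _).trans ?_
  rw [Pool.Agent.H75.Perc.Pr_eq, Finset.card_powerset, ENNReal.ofReal_div_of_pos (by positivity),
    ENNReal.ofReal_natCast, ENNReal.ofReal_pow (by norm_num)]
  congr 1
  · norm_num

lemma Pr_image {ι κ : Type} [DecidableEq ι] [DecidableEq κ] (f : ι → κ) {E : Finset ι}
    (hf : Set.InjOn f E) (A : Finset κ → Prop) :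
    Pr (E.image f) A = Pr E (fun s => A (s.image f)) := by
  classical
  rw [Pool.Agent.H75.Perc.Pr_eq, Pool.Agent.H75.Perc.Pr_eq, Finset.card_image_of_injOn hf]
  congr 2
  symm
  refine Finset.card_nbij (fun s => s.image f) ?_ ?_ ?_
  · intro s hs
    rw [Finset.mem_coe, Finset.mem_filter, Finset.mem_powerset] at hs ⊢
    exact ⟨Finset.image_subset_image hs.1, hs.2⟩
  · intro s hs t ht hst
    rw [Finset.mem_coe, Finset.mem_filter, Finset.mem_powerset] at hs ht
    rw [← Finset.coe_inj]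
    refine (hf.image_eq_image_iff (by exact_mod_cast hs.1) (by exact_mod_cast ht.1)).1 ?_
    rw [← Finset.coe_image, ← Finset.coe_image]
    exact congrArg _ hst
  · intro t ht
    rw [Finset.mem_coe, Finset.mem_filter, Finset.mem_powerset] at ht
    refine ⟨E.filter fun x => f x ∈ t, ?_, ?_⟩
    · rw [Finset.mem_coe, Finset.mem_filter, Finset.mem_powerset]
      refine ⟨Finset.filter_subset _ _, ?_⟩
      have : (E.filter fun x => f x ∈ t).image f = t := by
        ext y
        simp only [Finset.mem_image, Finset.mem_filter]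
        constructor
        · rintro ⟨x, ⟨-, h⟩, rfl⟩; exact h
        · intro hy
          obtain ⟨x, hx, rfl⟩ := Finset.mem_image.1 (ht.1 hy)
          exact ⟨x, ⟨hx, hy⟩, rfl⟩
      rw [this]; exact ht.2
    · ext y
      simp only [Finset.mem_image, Finset.mem_filter]
      constructor
      · rintro ⟨x, ⟨-, h⟩, rfl⟩; exact h
      · intro hy
        obtain ⟨x, hx, rfl⟩ := Finset.mem_image.1 (ht.1 hy)
        exact ⟨x, ⟨hx, hy⟩, rfl⟩

/-- The law of the set of open labels. -/
theorem half_apply (X : DDomain) (P : Finset (ℤ × ℤ) → Prop) :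
    (halfPMF X.free X.finite_free).toOuterMeasure
      {ω | ω ⊆ X.free ∧ ∀ S : Finset (ℤ × ℤ), (S : Set (ℤ × ℤ)) = lb '' ω → P S} =
      ENNReal.ofReal (Pr (EL X) P) := by
  classical
  rw [halfPMF_apply]
  congr 1
  have hEL : EL X = X.finite_free.toFinset.image lb := by
    ext l
    rw [mem_EL, Finset.mem_image]
    simp
  rw [hEL, Pr_image lb (by
    have : Set.InjOn lb X.free := lb_injOn.mono ((free_sub X).trans (edges_sub _))
    simpa using this)]
  refine Pool.Agent.H75.Perc.Pr_congr fun s hs => ?_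
  simp only [Set.mem_ofPred_eq]
  constructor
  · rintro ⟨-, h⟩
    exact h _ (by rw [Finset.coe_image])
  · intro h
    refine ⟨fun e he => by simpa using hs he, fun S hS => ?_⟩
    rw [← Finset.coe_image, Finset.coe_inj] at hS
    rw [hS]; exact h

end Pool.Agent.H57.Q1
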