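import Pool.Agent.H57.Q1.Visit

set_option autoImplicit false
open Set Filter Topology MeasureTheory

/-! # Tightness of the exploration paths

`tight` : along every approximating sequence of a Jordan domain the laws of the exploration paths
are tight. -/

namespace Pool.Agent.H57.Q1

open Pool.Agent.H81.Q1
open Pool.Agent.H69.Q1 (lb cor EL WL cor_injective plab_cor corner_edge_mem lb_injOn vx_cor
  mem_EL mem_WL odd_EL)
open Pool.Agent.H75.Perc (pv Pr vx)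
open Pool.Agent.H75.TwoArm (plab fi du)
open Pool.Agent.H49.Perc (Arms Arm1)

/-! ### Sequences with small steps -/

/-- restrict a crossing to a minimal one -/
lemma refine_cross {p : ℕ → ℂ} {δ : ℝ} (hp : ∀ t, dist (p (t + 1)) (p t) ≤ δ) {y : ℂ} {s s' : ℝ}
    (hs : s < s') {a b : ℕ} (hab : a < b) (ha : dist (p a) y ≤ s) (hb : s' ≤ dist (p b) y) :
    ∃ a' b', a ≤ a' ∧ a' < b' ∧ b' ≤ b ∧ dist (p a') y ≤ s ∧ s' ≤ dist (p b') y ∧
      ∀ t, a' ≤ t → t ≤ b' → s - δ ≤ dist (p t) y ∧ dist (p t) y ≤ s' + δ := by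
  classical
  have hδ : 0 ≤ δ := dist_nonneg.trans (hp 0)
  have hd : ∀ t, |dist (p (t + 1)) y - dist (p t) y| ≤ δ := fun t =>
    (abs_dist_sub_le _ _ _).trans (hp t)
  set P : ℕ → Prop := fun t => dist (p t) y ≤ s with hP
  set a' := Nat.findGreatest P b with ha'
  have h1 : P a' := Nat.findGreatest_spec hab.le ha
  have h2 : a ≤ a' := Nat.le_findGreatest hab.le ha
  have h3 : a' ≤ b := Nat.findGreatest_le b
  have h3' : a' < b := by
    rcases h3.lt_or_eq with h | h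
    · exact h
    · rw [h] at h1
      exact absurd (hb.trans h1) (not_le.2 hs)
  have h4 : ∀ t, a' < t → t ≤ b → s < dist (p t) y := fun t ht htb =>
    not_le.1 (Nat.findGreatest_is_greatest ht htb)
  have hex : ∃ t, a' < t ∧ s' ≤ dist (p t) y := ⟨b, h3', hb⟩
  set b' := Nat.find hex with hb'
  obtain ⟨h5, h6⟩ : a' < b' ∧ s' ≤ dist (p b') y := Nat.find_spec hex
  have h7 : ∀ t, a' < t → t < b' → dist (p t) y < s' := by
    intro t h8 h9
    by_contra h10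
    exact Nat.find_min hex h9 ⟨h8, not_lt.1 h10⟩
  have h8 : b' ≤ b := Nat.find_min' hex ⟨h3', hb⟩
  refine ⟨a', b', h2, h5, h8, h1, h6, ?_⟩
  intro t h9 h10
  have hta : dist (p a') y ≤ s := h1
  have hta' : s - δ ≤ dist (p a') y := by
    have h11 := h4 (a' + 1) (by omega) (by omega)
    have h12 := abs_le.1 (hd a')
    linarith
  have htb : dist (p b') y ≤ s' + δ := by
    obtain ⟨u, hu⟩ : ∃ u, b' = u + 1 := ⟨b' - 1, by omega⟩
    have h12 := abs_le.1 (hd u)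
    rw [hu]
    rcases Nat.eq_or_lt_of_le (show a' ≤ u by omega) with h13 | h13
    · rw [← h13] at h12 ⊢; linarith
    · have h14 := h7 u h13 (by omega)
      linarith
  rcases Nat.eq_or_lt_of_le h9 with h11 | h11
  · rw [← h11]; exact ⟨hta', by linarith⟩
  · rcases Nat.eq_or_lt_of_le h10 with h12 | h12
    · rw [h12]; exact ⟨by linarith, htb⟩
    · exact ⟨by linarith [h4 t h11 (by omega)], by linarith [h7 t h11 h12]⟩

/-- discrete intermediate value theorem -/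
lemma exists_small {f : ℕ → ℝ} {c : ℝ} (hf : ∀ t, |f (t + 1) - f t| ≤ c) {a b : ℕ} (hab : a ≤ b)
    (h : (f a ≤ 0 ∧ 0 ≤ f b) ∨ (0 ≤ f a ∧ f b ≤ 0)) : ∃ t, a ≤ t ∧ t ≤ b ∧ |f t| ≤ c := by
  have hc : 0 ≤ c := (abs_nonneg _).trans (hf 0)
  induction b, hab using Nat.le_induction with
  | base => exact ⟨a, le_rfl, le_rfl, by
      have : f a = 0 := by rcases h with h | h <;> linarith [h.1, h.2]
      rw [this, abs_zero]; exact hc⟩
  | succ b hab ih =>
    by_cases h1 : (f a ≤ 0 ∧ 0 ≤ f b) ∨ (0 ≤ f a ∧ f b ≤ 0)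
    · obtain ⟨t, h2, h3, h4⟩ := ih h1
      exact ⟨t, h2, by omega, h4⟩
    · refine ⟨b + 1, by omega, le_rfl, ?_⟩
      have h2 := abs_le.1 (hf b)
      rw [abs_le]
      push Not at h1
      rcases h with h | h
      · have := h1.1 h.1
        constructor <;> linarith [h.1, h.2]
      · have := h1.2 h.1
        constructor <;> linarith [h.1, h.2]

/-- choice of an annulus which avoids two given radii -/
lemma exists_annulus {r ra rb : ℝ} (hr : 0 < r) :
    ∃ r1, r ≤ r1 ∧ r1 ≤ 2500 * r ∧ (ra < r1 / 2 ∨ 20 * r1 < ra) ∧ (rb < r1 / 2 ∨ 20 * r1 < rb) := by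
  by_contra hcon
  push Not at hcon
  have h0 := hcon r le_rfl (by linarith)
  have h1 := hcon (50 * r) (by linarith) (by linarith)
  have h2 := hcon (2500 * r) (by linarith) (by linarith)
  by_cases c0 : ra < r / 2 ∨ 20 * r < ra
  · have d0 := h0 c0
    by_cases c1 : ra < 50 * r / 2 ∨ 20 * (50 * r) < ra
    · have d1 := h1 c1; linarith [d0.1, d0.2, d1.1, d1.2]
    · push Not at c1
      have d2 := h2 (Or.inl (by linarith [c1.2]))
      linarith [d0.1, d0.2, d2.1, d2.2]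
  · push Not at c0
    have d1 := h1 (Or.inl (by linarith [c0.2]))
    have d2 := h2 (Or.inl (by linarith [c0.2]))
    linarith [d1.1, d1.2, d2.1, d2.2]

/-- **Three types of strands.** `w t` : a wired edge is met at the time `t`, `o t` : an edge outside
the domain is met. -/
theorem trichotomy {p : ℕ → ℂ} {δ : ℝ} (hp : ∀ t, dist (p (t + 1)) (p t) ≤ δ) {A₁ A₂ : Set ℂ}
    {x : ℂ} {r1 R1 d s : ℝ} (hR1 : r1 < R1) (hs : 0 < s) (hsd : 40 * s ≤ d)
    (hsR : 20 * s ≤ R1)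
    (hK : ∀ z, r1 / 2 ≤ dist z x → dist z x ≤ 2 * R1 →
      4 * d ≤ Metric.infDist z A₁ + Metric.infDist z A₂) {Y : Finset ℂ}
    (hY : ∀ z, r1 / 2 ≤ dist z x → dist z x ≤ 2 * R1 → d ≤ Metric.infDist z A₁ →
      d ≤ Metric.infDist z A₂ → ∃ y ∈ Y, dist z y ≤ s)
    (hY' : ∀ y ∈ Y, d ≤ Metric.infDist y A₁ ∧ dist y x ≤ 2 * R1)
    (hδ : δ ≤ r1 / 2) (hδ' : δ ≤ s) {w o : ℕ → Prop} {N : ℕ}
    (hw : ∀ t ≤ N, w t → Metric.infDist (p t) A₁ ≤ d / 4)
    (ho : ∀ t ≤ N, o t → Metric.infDist (p t) A₂ ≤ d / 4)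
    {k m : ℕ} (hk : (2 + Y.card) * m ≤ k) (hk0 : 0 < k)
    (hseq : Seq (fun a b => dist (p a) x ≤ r1 ∧ 4 * R1 ≤ dist (p b) x) k N) :
    Seq (fun a b => (dist (p a) x ≤ r1 ∧ R1 ≤ dist (p b) x) ∧ ∀ t, a ≤ t → t < b → ¬ w t) m N ∨
    Seq (fun a b => (dist (p a) x ≤ r1 ∧ R1 ≤ dist (p b) x) ∧ ∀ t, a ≤ t → t < b → ¬ o t) m N ∨
    ∃ y ∈ Y, Seq (fun a b => (dist (p a) y ≤ s ∧ 10 * s ≤ dist (p b) y) ∧
      ∀ t, a ≤ t → t < b → ¬ w t) m N := by
  classical
  set P : Bool ⊕ ℂ → ℕ → ℕ → Prop := fun i => match i with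
    | Sum.inl false => fun a b => (dist (p a) x ≤ r1 ∧ R1 ≤ dist (p b) x) ∧
        ∀ t, a ≤ t → t < b → ¬ w t
    | Sum.inl true => fun a b => (dist (p a) x ≤ r1 ∧ R1 ≤ dist (p b) x) ∧
        ∀ t, a ≤ t → t < b → ¬ o t
    | Sum.inr y => fun a b => (dist (p a) y ≤ s ∧ 10 * s ≤ dist (p b) y) ∧
        ∀ t, a ≤ t → t < b → ¬ w t with hP
  have h1 : Seq (fun a b => ∃ i ∈ (Finset.univ : Finset Bool).disjSum Y, P i a b) k N := by
    refine Seq.sub ?_ hseq
    rintro a b hab hbN ⟨ha, hb⟩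
    obtain ⟨a1, b1, h2, h3, h4, h5, h6, h7⟩ := refine_cross hp (y := x) (s := r1) (s' := R1)
      (by linarith) hab ha (by linarith)
    by_cases c1 : ∀ t, a1 ≤ t → t < b1 → ¬ w t
    · exact ⟨a1, b1, h2, h3, h4, Sum.inl false, Finset.inl_mem_disjSum.2 (Finset.mem_univ _),
        ⟨h5, h6⟩, c1⟩
    by_cases c2 : ∀ t, a1 ≤ t → t < b1 → ¬ o t
    · exact ⟨a1, b1, h2, h3, h4, Sum.inl true, Finset.inl_mem_disjSum.2 (Finset.mem_univ _),
        ⟨h5, h6⟩, c2⟩
    push Not at c1 c2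
    obtain ⟨t1, u1, u2, u3⟩ := c1
    obtain ⟨t2, v1, v2, v3⟩ := c2
    have hd0 : 0 < d := by linarith
    have hin : ∀ t, a1 ≤ t → t ≤ b1 → r1 / 2 ≤ dist (p t) x ∧ dist (p t) x ≤ 2 * R1 := by
      intro t ht1 ht2
      obtain ⟨e1, e2⟩ := h7 t ht1 ht2
      exact ⟨by linarith, by linarith⟩
    have f1 := hw t1 (by omega) u3
    have f2 := ho t2 (by omega) v3
    have g1 := hK _ (hin t1 u1 u2.le).1 (hin t1 u1 u2.le).2
    have g2 := hK _ (hin t2 v1 v2.le).1 (hin t2 v1 v2.le).2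
    set f : ℕ → ℝ := fun t => Metric.infDist (p t) A₁ - Metric.infDist (p t) A₂ with hf
    have hf1 : f t1 ≤ 0 := by simp only [hf]; linarith
    have hf2 : 0 ≤ f t2 := by simp only [hf]; linarith
    have hfs : ∀ t, |f (t + 1) - f t| ≤ 2 * δ := by
      intro t
      have e1 := Metric.infDist_le_infDist_add_dist (s := A₁) (x := p (t + 1)) (y := p t)
      have e2 := Metric.infDist_le_infDist_add_dist (s := A₁) (x := p t) (y := p (t + 1))
      have e3 := Metric.infDist_le_infDist_add_dist (s := A₂) (x := p (t + 1)) (y := p t)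
      have e4 := Metric.infDist_le_infDist_add_dist (s := A₂) (x := p t) (y := p (t + 1))
      have e5 := hp t
      rw [dist_comm (p t) (p (t + 1))] at e2 e4
      rw [abs_le]
      simp only [hf]
      constructor <;> linarith
    obtain ⟨t3, w1, w2, w3⟩ : ∃ t, a1 ≤ t ∧ t < b1 ∧ |f t| ≤ 2 * δ := by
      rcases le_total t1 t2 with h | h
      · obtain ⟨t, e1, e2, e3⟩ := exists_small hfs h (Or.inl ⟨hf1, hf2⟩)
        exact ⟨t, by omega, by omega, e3⟩
      · obtain ⟨t, e1, e2, e3⟩ := exists_small hfs h (Or.inr ⟨hf2, hf1⟩)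
        exact ⟨t, by omega, by omega, e3⟩
    have g3 := hK _ (hin t3 w1 w2.le).1 (hin t3 w1 w2.le).2
    have g4 := abs_le.1 w3
    simp only [hf] at g4
    obtain ⟨y, hyY, hy⟩ := hY _ (hin t3 w1 w2.le).1 (hin t3 w1 w2.le).2 (by linarith) (by linarith)
    obtain ⟨hy1, hy2⟩ := hY' y hyY
    have hby : 10 * s ≤ dist (p b) y := by
      have := dist_triangle (p b) y x
      linarith
    obtain ⟨a2, b2, e2, e3, e4, e5, e6, e7⟩ := refine_cross hp (y := y) (s := s) (s' := 10 * s)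
      (by linarith) (show t3 < b by omega) hy hby
    refine ⟨a2, b2, by omega, e3, e4, Sum.inr y, Finset.inr_mem_disjSum.2 hyY, ⟨e5, e6⟩, ?_⟩
    intro t ht1 ht2 ht3
    have e8 := hw t (by omega) ht3
    have e9 := (e7 t ht1 ht2.le).2
    have e10 := Metric.infDist_le_infDist_add_dist (s := A₁) (x := y) (y := p t)
    rw [dist_comm y (p t)] at e10
    linarith
  obtain ⟨i, hi, h2⟩ := Seq.pigeon (m := m) (by
    rw [Finset.card_disjSum]; simpa using hk) hk0 h1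
  rcases i with (_ | _) | y
  · exact Or.inl h2
  · exact Or.inr (Or.inl h2)
  · exact Or.inr (Or.inr ⟨y, Finset.inr_mem_disjSum.1 hi, h2⟩)

/-! ### From the plane to the lattice -/

/-- boxes around a point of the plane -/
lemma exists_box {δ s : ℝ} (hδ : 0 < δ) (hs : 20 * δ ≤ s) (y : ℂ) :
    ∃ (y' : ℤ × ℤ) (ρ : ℤ), 1 ≤ ρ ∧
      (∀ v : ℤ × ℤ, dist (pt δ v) y ≤ s → |v.1 - y'.1| ≤ ρ - 1 ∧ |v.2 - y'.2| ≤ ρ - 1) ∧
      (∀ v : ℤ × ℤ, 10 * s ≤ dist (pt δ v) y →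
        4 * ρ + 1 ≤ |v.1 - y'.1| ∨ 4 * ρ + 1 ≤ |v.2 - y'.2|) := by
  set u := s / δ with hu
  have hu20 : 20 ≤ u := by rw [hu, le_div_iff₀ hδ]; exact hs
  set y' : ℤ × ℤ := (⌊y.re / δ⌋, ⌊y.im / δ⌋) with hy'
  have e1 : (y'.1 : ℝ) ≤ y.re / δ := Int.floor_le _
  have e2 : y.re / δ < y'.1 + 1 := Int.lt_floor_add_one _
  have e3 : (y'.2 : ℝ) ≤ y.im / δ := Int.floor_le _
  have e4 : y.im / δ < y'.2 + 1 := Int.lt_floor_add_one _
  have c1 : u ≤ (⌈u⌉ : ℤ) := Int.le_ceil _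
  have c2 : ((⌈u⌉ : ℤ) : ℝ) < u + 1 := Int.ceil_lt_add_one _
  refine ⟨y', ⌈u⌉ + 2, ?_, ?_, ?_⟩
  · have : (0 : ℝ) < (⌈u⌉ : ℤ) := by linarith
    have : (0 : ℤ) < ⌈u⌉ := by exact_mod_cast this
    omega
  · intro v hv
    have hre : |(pt δ v - y).re| ≤ s := by
      refine (Complex.abs_re_le_norm _).trans ?_
      rwa [← dist_eq_norm]
    have him : |(pt δ v - y).im| ≤ s := by
      refine (Complex.abs_im_le_norm _).trans ?_
      rwa [← dist_eq_norm]
    have k1 : |(v.1 : ℝ) - y.re / δ| ≤ u := by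
      have : (pt δ v - y).re = δ * ((v.1 : ℝ) - y.re / δ) := by
        simp only [pt, Complex.sub_re]; field_simp
      rw [this, abs_mul, abs_of_pos hδ] at hre
      rw [hu, le_div_iff₀ hδ]; linarith
    have k2 : |(v.2 : ℝ) - y.im / δ| ≤ u := by
      have : (pt δ v - y).im = δ * ((v.2 : ℝ) - y.im / δ) := by
        simp only [pt, Complex.sub_im]; field_simp
      rw [this, abs_mul, abs_of_pos hδ] at him
      rw [hu, le_div_iff₀ hδ]; linarith
    obtain ⟨k1a, k1b⟩ := abs_le.1 k1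
    obtain ⟨k2a, k2b⟩ := abs_le.1 k2
    constructor
    · rw [abs_le]
      constructor
      · have : (-(⌈u⌉ + 2 - 1 : ℤ) : ℝ) ≤ ((v.1 - y'.1 : ℤ) : ℝ) := by push_cast; linarith
        exact_mod_cast this
      · have : ((v.1 - y'.1 : ℤ) : ℝ) ≤ ((⌈u⌉ + 2 - 1 : ℤ) : ℝ) := by push_cast; linarith
        exact_mod_cast this
    · rw [abs_le]
      constructor
      · have : (-(⌈u⌉ + 2 - 1 : ℤ) : ℝ) ≤ ((v.2 - y'.2 : ℤ) : ℝ) := by push_cast; linarith
        exact_mod_cast this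
      · have : ((v.2 - y'.2 : ℤ) : ℝ) ≤ ((⌈u⌉ + 2 - 1 : ℤ) : ℝ) := by push_cast; linarith
        exact_mod_cast this
  · intro v hv
    by_contra hcon
    push Not at hcon
    obtain ⟨m1, m2⟩ := hcon
    have n1 : |v.1 - y'.1| ≤ 4 * (⌈u⌉ + 2) := by omega
    have n2 : |v.2 - y'.2| ≤ 4 * (⌈u⌉ + 2) := by omega
    obtain ⟨n1a, n1b⟩ := abs_le.1 n1
    obtain ⟨n2a, n2b⟩ := abs_le.1 n2
    have n1a' : (-(4 * (⌈u⌉ + 2) : ℤ) : ℝ) ≤ ((v.1 - y'.1 : ℤ) : ℝ) := by exact_mod_cast n1a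
    have n1b' : ((v.1 - y'.1 : ℤ) : ℝ) ≤ ((4 * (⌈u⌉ + 2) : ℤ) : ℝ) := by exact_mod_cast n1b
    have n2a' : (-(4 * (⌈u⌉ + 2) : ℤ) : ℝ) ≤ ((v.2 - y'.2 : ℤ) : ℝ) := by exact_mod_cast n2a
    have n2b' : ((v.2 - y'.2 : ℤ) : ℝ) ≤ ((4 * (⌈u⌉ + 2) : ℤ) : ℝ) := by exact_mod_cast n2b
    push_cast at n1a' n1b' n2a' n2b'
    have k1 : |(v.1 : ℝ) - y.re / δ| ≤ 4 * u + 13 := by rw [abs_le]; constructor <;> linarith
    have k2 : |(v.2 : ℝ) - y.im / δ| ≤ 4 * u + 13 := by rw [abs_le]; constructor <;> linarith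
    have k3 : |(pt δ v - y).re| ≤ δ * (4 * u + 13) := by
      have : (pt δ v - y).re = δ * ((v.1 : ℝ) - y.re / δ) := by
        simp only [pt, Complex.sub_re]; field_simp
      rw [this, abs_mul, abs_of_pos hδ]
      exact mul_le_mul_of_nonneg_left k1 hδ.le
    have k4 : |(pt δ v - y).im| ≤ δ * (4 * u + 13) := by
      have : (pt δ v - y).im = δ * ((v.2 : ℝ) - y.im / δ) := by
        simp only [pt, Complex.sub_im]; field_simp
      rw [this, abs_mul, abs_of_pos hδ]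
      exact mul_le_mul_of_nonneg_left k2 hδ.le
    have k5 : dist (pt δ v) y ≤ δ * (4 * u + 13) + δ * (4 * u + 13) := by
      rw [dist_eq_norm]
      exact (Complex.norm_le_abs_re_add_abs_im _).trans (add_le_add k3 k4)
    have k6 : δ * u = s := by rw [hu]; field_simp
    nlinarith

section convert

variable (X : DDomain) {ω : Set (Sym2 (ℤ × ℤ))} {S : Finset (ℤ × ℤ)}

lemma plab_corner (hω : ω ⊆ X.free) (hS : (S : Set (ℤ × ℤ)) = lb '' ω) (t : ℕ) :
    plab ((pv (S ∪ WL X))^[t] (cor X.α)) = lb (X.corner ω t).edge := by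
  rw [← cor_corner X hω hS, plab_cor]

lemma vx_corner (hω : ω ⊆ X.free) (hS : (S : Set (ℤ × ℤ)) = lb '' ω) (t : ℕ) :
    vx ((pv (S ∪ WL X))^[t] (cor X.α)) = (X.corner ω t).1 := by
  rw [← cor_corner X hω hS, vx_cor]

lemma fi_vx (c : ℤ × ℤ) : 0 ≤ (fi c).1 - (vx c).1 ∧ (fi c).1 - (vx c).1 ≤ 1 ∧
    0 ≤ (fi c).2 - (vx c).2 ∧ (fi c).2 - (vx c).2 ≤ 1 := by
  unfold fi vx
  simp only
  omega

lemma corner_iter_inj (hω : ω ⊆ X.free) (hS : (S : Set (ℤ × ℤ)) = lb '' ω) :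
    ∀ i j, i < X.len ω → j < X.len ω →
      (pv (S ∪ WL X))^[i] (cor X.α) = (pv (S ∪ WL X))^[j] (cor X.α) → i = j := by
  intro i j hi hj h
  rw [← cor_corner X hω hS, ← cor_corner X hω hS] at h
  exact corner_inj X hω hi.le hj.le (cor_injective h)

/-- strands without wired edges give open arms -/
lemma open_of_seq (hω : ω ⊆ X.free) (hS : (S : Set (ℤ × ℤ)) = lb '' ω) {δ s s' : ℝ} {y : ℂ}
    {y' : ℤ × ℤ} {ρ : ℤ}
    (hin : ∀ v : ℤ × ℤ, dist (pt δ v) y ≤ s → |v.1 - y'.1| ≤ ρ - 1 ∧ |v.2 - y'.2| ≤ ρ - 1)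
    (hout : ∀ v : ℤ × ℤ, s' ≤ dist (pt δ v) y →
      4 * ρ + 1 ≤ |v.1 - y'.1| ∨ 4 * ρ + 1 ≤ |v.2 - y'.2|) {m : ℕ}
    (h : Seq (fun a b => (dist (pt δ (X.corner ω a).1) y ≤ s ∧ s' ≤ dist (pt δ (X.corner ω b).1) y) ∧
      ∀ t, a ≤ t → t < b → ¬ (X.corner ω t).edge ∈ X.arc) m (X.len ω)) :
    Arms m (Arm1 y' ρ (4 ^ 1 * ρ)) S := by
  refine open_arms (L := S ∪ WL X) (c := cor X.α) ?_ ?_ (corner_iter_inj X hω hS) h
  · rintro a b - ⟨⟨h1, h2⟩, -⟩
    rw [vx_corner X hω hS, vx_corner X hω hS]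
    have h3 := hin _ h1
    have h4 := hout _ h2
    exact ⟨⟨by omega, by omega⟩, by omega⟩
  · rintro a b ⟨-, h1⟩ t hta htb h2
    rcases Finset.mem_union.1 h2 with h3 | h3
    · exact h3
    · exfalso
      rw [plab_corner X hω hS, mem_WL] at h3
      obtain ⟨e, he, h4⟩ := h3
      have h5 : e = (X.corner ω t).edge := lb_injOn
        (Pool.Agent.H69.Q1.edges_sub _ (Pool.Agent.H69.Q1.arc_sub X he)) (corner_edge_mem _) h4
      exact h1 t hta htb (h5 ▸ he)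

/-- strands without edges outside the domain give dual arms -/
lemma dual_of_seq (hω : ω ⊆ X.free) (hS : (S : Set (ℤ × ℤ)) = lb '' ω) {δ s s' : ℝ} {y : ℂ}
    {y' : ℤ × ℤ} {ρ : ℤ}
    (hin : ∀ v : ℤ × ℤ, dist (pt δ v) y ≤ s → |v.1 - y'.1| ≤ ρ - 1 ∧ |v.2 - y'.2| ≤ ρ - 1)
    (hout : ∀ v : ℤ × ℤ, s' ≤ dist (pt δ v) y →
      4 * ρ + 1 ≤ |v.1 - y'.1| ∨ 4 * ρ + 1 ≤ |v.2 - y'.2|) {m : ℕ}
    (h : Seq (fun a b => (dist (pt δ (X.corner ω a).1) y ≤ s ∧ s' ≤ dist (pt δ (X.corner ω b).1) y) ∧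
      ∀ t, a ≤ t → t < b → ¬ (X.corner ω t).edge ∉ X.E) m (X.len ω)) :
    Arms m (Arm1 y' ρ (4 ^ 1 * ρ)) (du (EL X) S) := by
  refine dual_arms (L := S ∪ WL X) (c := cor X.α) Finset.subset_union_left ?_ ?_
    (corner_iter_inj X hω hS) h
  · rintro a b - ⟨⟨h1, h2⟩, -⟩
    have h3 := hin _ h1
    have h4 := hout _ h2
    have h5 := fi_vx ((pv (S ∪ WL X))^[a] (cor X.α))
    have h6 := fi_vx ((pv (S ∪ WL X))^[b] (cor X.α))
    rw [vx_corner X hω hS] at h5 h6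
    simp only [abs_le] at h3 ⊢
    refine ⟨⟨by omega, by omega⟩, ?_⟩
    simp only [le_abs] at h4 ⊢
    omega
  · rintro a b ⟨-, h1⟩ t hta htb h2
    have h3 : (X.corner ω t).edge ∈ X.E := not_not.1 (h1 t hta htb)
    rw [plab_corner X hω hS] at h2 ⊢
    refine (mem_EL X).2 ⟨_, ⟨h3, fun h4 => h2 ?_⟩, rfl⟩
    exact Finset.mem_union_right _ ((mem_WL X).2 ⟨_, h4, rfl⟩)

/-- neighbouring vertices -/
lemma dist_corner_succ {δ : ℝ} (hδ : 0 < δ) (t : ℕ) :
    dist (pt δ (X.corner ω (t + 1)).1) (pt δ (X.corner ω t).1) ≤ δ := by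
  rw [corner_succ]
  unfold next
  split_ifs with h
  · rw [pt_add, dist_eq_norm, add_sub_cancel_left, norm_pt_dir δ hδ]
  · rw [dist_self]; exact hδ.le

/-- the two ends of an edge -/
lemma dist_ends {δ : ℝ} (hδ : 0 < δ) {c : Corner} {v : ℤ × ℤ} (hv : v ∈ c.edge) :
    dist (pt δ c.1) (pt δ v) ≤ δ := by
  unfold Corner.edge at hv
  rcases Sym2.mem_iff.1 hv with rfl | rfl
  · rw [dist_self]; exact hδ.le
  · rw [pt_add, dist_comm, dist_eq_norm, add_sub_cancel_left, norm_pt_dir δ hδ]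

end convert

lemma seq_of_VCross {p : ℕ → ℂ} {x : ℂ} {r R : ℝ} : ∀ {k n : ℕ}, VCross p n x r R k →
    Seq (fun a b => dist (p a) x ≤ r ∧ R ≤ dist (p b) x) k n := by
  intro k
  induction k with
  | zero => intro n _; trivial
  | succ k ih =>
    rintro n ⟨a, b, h1, h2⟩
    obtain ⟨e1, e2, e3, e4⟩ := h1 k (by omega)
    refine ⟨a k, b k, e1, e2, ⟨e3, e4⟩, ih ⟨a, b, fun i hi => ?_, fun i hi => h2 i (by omega)⟩⟩
    obtain ⟨f1, f2, f3, f4⟩ := h1 i (by omega)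
    refine ⟨f1, ?_, f3, f4⟩
    -- `b i ≤ a (i+1) < b (i+1) ≤ ... ≤ a k`
    have hmono : ∀ j, i < j → j ≤ k → b i ≤ a j := by
      intro j hij
      induction j, hij using Nat.le_induction with
      | base => intro _; exact h2 i (by omega)
      | succ j hj ihj =>
        intro hjk
        have g1 := ihj (by omega)
        have g2 := (h1 j (by omega)).1
        have g3 := h2 j (by omega)
        omega
    exact hmono k (by omega) le_rfl

lemma Pr_exists_le {ι α : Type*} [DecidableEq α] (E : Finset α) (Y : Finset ι)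
    (P : ι → Finset α → Prop) : Pr E (fun ω => ∃ y ∈ Y, P y ω) ≤ ∑ y ∈ Y, Pr E (P y) := by
  classical
  induction Y using Finset.induction_on with
  | empty =>
    rw [Finset.sum_empty]
    have : Pr E (fun ω => ∃ y ∈ (∅ : Finset ι), P y ω) = Pr E (fun _ => False) :=
      Pool.Agent.H75.Perc.Pr_congr fun ω _ => by simp
    rw [this, Pool.Agent.H75.Perc.Pr_eq]
    simp
  | insert y Y hy ih =>
    rw [Finset.sum_insert hy]
    refine le_trans (Pool.Agent.H75.Perc.Pr_mono fun ω _ h => ?_)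
      ((Pool.Agent.H75.Perc.Pr_or_le E (P y) (fun ω => ∃ y ∈ Y, P y ω)).trans
        (add_le_add_right ih _))
    obtain ⟨z, hz, hz'⟩ := h
    rcases Finset.mem_insert.1 hz with rfl | hz
    · exact Or.inl hz'
    · exact Or.inr ⟨z, hz, hz'⟩

/-- **Crossings of an annulus**: the number of crossings of `A(x; r, R)` by the corner sequence is
tight. -/
theorem cross_bound {D : Set ℂ} {a b : ℂ} {A₁ A₂ : Set ℂ} (hA : IsArcs D a b A₁ A₂)
    (A : Approx D a b A₁ A₂) (x : ℂ) {r R : ℝ} (hr : 0 < r) (hΛ : 100000 * r ≤ R) {ε : ENNReal}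
    (hε : 0 < ε) : ∃ k : ℕ, ∀ᶠ n in atTop,
      (halfPMF (A.X n).free (A.X n).finite_free).toOuterMeasure
        {ω | ω ⊆ (A.X n).free ∧ Seq (fun a b => dist (pt (A.δ n) ((A.X n).corner ω a).1) x ≤ r ∧
          R ≤ dist (pt (A.δ n) ((A.X n).corner ω b).1) x) k ((A.X n).len ω)} ≤ ε := by
  classical
  obtain ⟨q, hq0, hq1, hq⟩ := k_arms_dual
  obtain ⟨r1, hr1, hr2, ha, hb⟩ := exists_annulus (ra := dist a x) (rb := dist b x) hr
  have hr0 : 0 < r1 := by linarith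
  -- the annulus `K`
  set K : Set ℂ := {z | r1 / 2 ≤ dist z x ∧ dist z x ≤ 2 * (10 * r1)} with hK
  have hcx : Continuous fun z : ℂ => dist z x := continuous_id.dist continuous_const
  have hKc : IsCompact K := by
    refine Metric.isCompact_of_isClosed_isBounded ?_ ?_
    · exact (isClosed_le continuous_const hcx).inter (isClosed_le hcx continuous_const)
    · exact (Metric.isBounded_closedBall (x := x) (r := 2 * (10 * r1))).subset fun z hz => hz.2
  have hc1 : Continuous fun z => Metric.infDist z A₁ := Metric.continuous_infDist_pt A₁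
  have hc2 : Continuous fun z => Metric.infDist z A₂ := Metric.continuous_infDist_pt A₂
  obtain ⟨d, hd0, hd⟩ : ∃ d : ℝ, 0 < d ∧ ∀ z ∈ K, 4 * d ≤ Metric.infDist z A₁ + Metric.infDist z A₂ := by
    rcases K.eq_empty_or_nonempty with h | h
    · exact ⟨1, one_pos, fun z hz => by rw [h] at hz; exact absurd hz (notMem_empty _)⟩
    · obtain ⟨z0, hz0, hmin⟩ := hKc.exists_isMinOn h (hc1.add hc2).continuousOn
      have hpos : 0 < Metric.infDist z0 A₁ + Metric.infDist z0 A₂ := by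
        have e1 : 0 ≤ Metric.infDist z0 A₁ := Metric.infDist_nonneg
        have e2 : 0 ≤ Metric.infDist z0 A₂ := Metric.infDist_nonneg
        rcases (add_nonneg e1 e2).lt_or_eq with h1 | h1
        · exact h1
        · exfalso
          have e3 : Metric.infDist z0 A₁ = 0 := by linarith
          have e4 : Metric.infDist z0 A₂ = 0 := by linarith
          have e5 : z0 ∈ A₁ := (hA.closed₁.mem_iff_infDist_zero hA.conn₁.nonempty).2 e3
          have e6 : z0 ∈ A₂ := (hA.closed₂.mem_iff_infDist_zero hA.conn₂.nonempty).2 e4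
          have e7 : z0 ∈ ({a, b} : Set ℂ) := by rw [← hA.inter]; exact ⟨e5, e6⟩
          rcases e7 with e8 | e8
          · rw [e8] at hz0
            rcases ha with h2 | h2 <;> linarith [hz0.1, hz0.2]
          · rw [mem_singleton_iff.1 e8] at hz0
            rcases hb with h2 | h2 <;> linarith [hz0.1, hz0.2]
      refine ⟨(Metric.infDist z0 A₁ + Metric.infDist z0 A₂) / 4, by positivity, fun z hz => ?_⟩
      have : Metric.infDist z0 A₁ + Metric.infDist z0 A₂ ≤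
        Metric.infDist z A₁ + Metric.infDist z A₂ := hmin hz
      linarith
  -- the middle part and a finite cover
  set G : Set ℂ := {z | z ∈ K ∧ d ≤ Metric.infDist z A₁ ∧ d ≤ Metric.infDist z A₂} with hG
  have hGc : IsCompact G := by
    refine hKc.inter_right ((isClosed_le continuous_const hc1).inter
      (isClosed_le continuous_const hc2))
  set s : ℝ := min (d / 40) (r1 / 2) with hs
  have hs0 : 0 < s := lt_min (by positivity) (by positivity)
  have hs1 : 40 * s ≤ d := by have := min_le_left (d / 40) (r1 / 2); linarith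
  have hs2 : 20 * s ≤ 10 * r1 := by have := min_le_right (d / 40) (r1 / 2); linarith
  obtain ⟨Y0, hY0, hY0f, hY0c⟩ := hGc.finite_cover_balls hs0
  set Y : Finset ℂ := hY0f.toFinset with hY
  have hYG : ∀ y ∈ Y, y ∈ G := fun y hy => hY0 (by simpa [hY] using hy)
  -- number of arms
  obtain ⟨ε', hε', hεε'⟩ : ∃ ε' : ℝ, 0 < ε' ∧ ENNReal.ofReal ε' ≤ ε := by
    rcases eq_or_ne ε ⊤ with rfl | h
    · exact ⟨1, one_pos, le_top⟩
    · exact ⟨ε.toReal, ENNReal.toReal_pos hε.ne' h, by rw [ENNReal.ofReal_toReal h]⟩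
  obtain ⟨m, hm⟩ : ∃ m : ℕ, (2 + (Y.card : ℝ)) * (1 - q) ^ m ≤ ε' := by
    obtain ⟨m, hm⟩ := exists_pow_lt_of_lt_one
      (show 0 < ε' / (2 + (Y.card : ℝ)) by positivity) (show 1 - q < 1 by linarith)
    refine ⟨m, ?_⟩
    rw [lt_div_iff₀ (by positivity)] at hm
    linarith
  refine ⟨(2 + Y.card) * m + 1, ?_⟩
  -- small meshes
  have l1 : ∀ᶠ n in atTop, A.δ n ≤ s / 20 :=
    (A.lim.eventually_lt_const (show 0 < s / 20 by positivity)).mono fun n h => h.le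
  filter_upwards [l1, A.wired (d / 8) (by positivity), A.dual (d / 8) (by positivity)] with n h1 h2 h3
  have hδ := A.pos n
  set δ := A.δ n with hδdef
  set X := A.X n with hX
  have hsr : s ≤ r1 / 2 := min_le_right _ _
  obtain ⟨x', ρ, hρ, bin, bout⟩ := exists_box hδ (show 20 * δ ≤ r1 by linarith) x
  choose Bx Br hBr Bin Bout using fun y : ℂ => exists_box hδ (show 20 * δ ≤ s by linarith) y
  -- the event
  have hev : {ω | ω ⊆ X.free ∧ Seq (fun a b => dist (pt δ (X.corner ω a).1) x ≤ r ∧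
      R ≤ dist (pt δ (X.corner ω b).1) x) ((2 + Y.card) * m + 1) (X.len ω)} ⊆
      {ω | ω ⊆ X.free ∧ ∀ S : Finset (ℤ × ℤ), (S : Set (ℤ × ℤ)) = lb '' ω →
        (Arms m (Arm1 x' ρ (4 ^ 1 * ρ)) S ∨ (Arms m (Arm1 x' ρ (4 ^ 1 * ρ)) (du (EL X) S) ∨
          ∃ y ∈ Y, Arms m (Arm1 (Bx y) (Br y) (4 ^ 1 * Br y)) S))} := by
    rintro ω ⟨hω, hV⟩
    refine ⟨hω, fun S hS => ?_⟩
    have g1 : Seq (fun a b => dist (pt δ (X.corner ω a).1) x ≤ r1 ∧
        4 * (10 * r1) ≤ dist (pt δ (X.corner ω b).1) x) ((2 + Y.card) * m + 1) (X.len ω) := by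
      refine Seq.imp ?_ hV
      rintro u v - - ⟨e1, e2⟩
      exact ⟨e1.trans hr1, le_trans (by linarith) e2⟩
    have g2 := trichotomy (p := fun t => pt δ (X.corner ω t).1) (δ := δ)
      (fun t => dist_corner_succ X hδ t) (A₁ := A₁) (A₂ := A₂) (x := x) (r1 := r1) (R1 := 10 * r1)
      (d := d) (s := s) (by linarith) hs0 hs1 hs2 (fun z hz1 hz2 => hd z ⟨hz1, hz2⟩) (Y := Y)
      (fun z hz1 hz2 hz3 hz4 => by
        have e1 : z ∈ G := ⟨⟨hz1, hz2⟩, hz3, hz4⟩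
        obtain ⟨y, hy, hzy⟩ := mem_iUnion₂.1 (hY0c e1)
        exact ⟨y, by simpa [hY] using hy, (Metric.mem_ball.1 hzy).le⟩)
      (fun y hy => ⟨(hYG y hy).2.1, (hYG y hy).1.2⟩) (by linarith) (by linarith)
      (w := fun t => (X.corner ω t).edge ∈ X.arc) (o := fun t => (X.corner ω t).edge ∉ X.E)
      (N := X.len ω) ?_ ?_ (m := m) (Nat.le_succ _) (Nat.succ_pos _) g1
    · rcases g2 with g2 | g2 | ⟨y, hy, g2⟩
      · exact Or.inl (open_of_seq X hω hS bin bout g2)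
      · exact Or.inr (Or.inl (dual_of_seq X hω hS bin bout g2))
      · exact Or.inr (Or.inr ⟨y, hy, open_of_seq X hω hS (Bin y) (Bout y) g2⟩)
    · intro t _ ht
      obtain ⟨c, hc, hce⟩ := wired_met X ht
      have e1 := h2 c hc
      have e2 := dist_ends hδ hce
      have e3 := Metric.infDist_le_infDist_add_dist (s := A₁) (x := pt δ (X.corner ω t).1)
        (y := pt δ c.1)
      linarith
    · intro t ht he
      have e1 := h3 _ (dual_met X hω ht he)
      linarith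
  refine (measure_mono hev).trans ?_
  rw [half_apply X]
  refine le_trans (ENNReal.ofReal_le_ofReal ?_) hεε'
  have hodd : ∀ e ∈ EL X, (e.1 + e.2) % 2 = 1 := fun e he => odd_EL X he
  have p1 := (hq (EL X) hodd x' ρ hρ 1 m).1
  have p2 := (hq (EL X) hodd x' ρ hρ 1 m).2
  have p3 : ∑ y ∈ Y, Pr (EL X) (Arms m (Arm1 (Bx y) (Br y) (4 ^ 1 * Br y))) ≤
      (Y.card : ℝ) * (1 - q) ^ (1 * m) := by
    rw [← nsmul_eq_mul]
    exact Finset.sum_le_card_nsmul _ _ _ fun y _ => (hq (EL X) hodd (Bx y) (Br y) (hBr y) 1 m).1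
  rw [one_mul] at p1 p2 p3
  refine le_trans ((Pool.Agent.H75.Perc.Pr_or_le _ _ _).trans (add_le_add p1
    ((Pool.Agent.H75.Perc.Pr_or_le _ _ _).trans (add_le_add p2
      ((Pr_exists_le _ _ _).trans p3))))) ?_
  linarith

/-- **Tightness of the exploration paths.** -/
theorem tight {D : Set ℂ} {a b : ℂ} {A₁ A₂ : Set ℂ} (hD : Bornology.IsBounded D)
    (hne : D.Nonempty) (hA : IsArcs D a b A₁ A₂) (A : Approx D a b A₁ A₂) :
    IsTightMeasureSet {((A.law n : ProbabilityMeasure Curve) : Measure Curve) | n} := by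
  refine tight_of_VCross hD hne A (Λ := 100000) (by norm_num) ?_
  intro x r R hr hΛ ε hε
  obtain ⟨k, hk⟩ := cross_bound hA A x hr hΛ hε
  refine ⟨k, hk.mono fun n hn => le_trans (measure_mono ?_) hn⟩
  rintro ω ⟨hω, hV⟩
  exact ⟨hω, seq_of_VCross hV⟩

/-- **The number of macroscopic pieces is tight**: for every `ρ > 0` the corner sequence contains at
most `m` successive pieces of diameter `≥ ρ`, with high probability. -/
theorem pieces_bound {D : Set ℂ} {a b : ℂ} {A₁ A₂ : Set ℂ} (hD : Bornology.IsBounded D)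
    (hne : D.Nonempty) (hA : IsArcs D a b A₁ A₂) (A : Approx D a b A₁ A₂) {ρ : ℝ} (hρ : 0 < ρ)
    {ε : ENNReal} (hε : 0 < ε) : ∃ m : ℕ, ∀ᶠ n in atTop,
      (halfPMF (A.X n).free (A.X n).finite_free).toOuterMeasure
        {ω | ω ⊆ (A.X n).free ∧ Seq (fun a b => ρ ≤ dist (pt (A.δ n) ((A.X n).corner ω b).1)
          (pt (A.δ n) ((A.X n).corner ω a).1)) m ((A.X n).len ω)} ≤ ε := by
  classical
  obtain ⟨R0, hR0⟩ := A.bounded hD hne
  set r : ℝ := ρ / 100001 with hr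
  have hr0 : 0 < r := by positivity
  obtain ⟨P, hPf, hP⟩ := Metric.totallyBounded_iff.1
    (isCompact_closedBall (0 : ℂ) R0).totallyBounded r hr0
  set Y : Finset ℂ := hPf.toFinset with hY
  have hε' : 0 < ε / (Y.card : ENNReal) := ENNReal.div_pos hε.ne' (ENNReal.natCast_ne_top _)
  have h1 := fun y : ℂ => cross_bound hA A y (r := r) (R := ρ - r) hr0
    (by rw [hr]; linarith) hε'
  choose k hk using h1
  refine ⟨Y.card * Y.sup k + 1, ?_⟩
  have h2 : ∀ᶠ n in atTop, ∀ y ∈ Y, _ := (Finset.eventually_all Y).2 fun y _ => hk y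
  filter_upwards [h2] with n hn
  have hsub : {ω | ω ⊆ (A.X n).free ∧ Seq (fun a b => ρ ≤ dist (pt (A.δ n) ((A.X n).corner ω b).1)
      (pt (A.δ n) ((A.X n).corner ω a).1)) (Y.card * Y.sup k + 1) ((A.X n).len ω)} ⊆
      ⋃ y ∈ Y, {ω | ω ⊆ (A.X n).free ∧
        Seq (fun a b => dist (pt (A.δ n) ((A.X n).corner ω a).1) y ≤ r ∧
          ρ - r ≤ dist (pt (A.δ n) ((A.X n).corner ω b).1) y) (k y) ((A.X n).len ω)} := by
    rintro ω ⟨hω, hs⟩
    have h3 : Seq (fun a b => ∃ y ∈ Y, dist (pt (A.δ n) ((A.X n).corner ω a).1) y ≤ r ∧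
        ρ - r ≤ dist (pt (A.δ n) ((A.X n).corner ω b).1) y) (Y.card * Y.sup k + 1)
        ((A.X n).len ω) := by
      refine Seq.imp ?_ hs
      intro u v _ _ huv
      have h4 : pt (A.δ n) ((A.X n).corner ω u).1 ∈ Metric.closedBall (0 : ℂ) R0 := by
        rw [Metric.mem_closedBall, dist_zero_right]
        exact hR0 n _ (corner_mem _ hω u)
      obtain ⟨y, hy, hy'⟩ := mem_iUnion₂.1 (hP h4)
      refine ⟨y, by simpa [hY] using hy, (Metric.mem_ball.1 hy').le, ?_⟩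
      have h5 := dist_triangle (pt (A.δ n) ((A.X n).corner ω v).1) y
        (pt (A.δ n) ((A.X n).corner ω u).1)
      have h6 := (Metric.mem_ball.1 hy').le
      rw [dist_comm y] at h5
      linarith
    obtain ⟨y, hy, h4⟩ := Seq.pigeon (m := Y.sup k) (Nat.le_succ _) (Nat.succ_pos _) h3
    exact mem_iUnion₂.2 ⟨y, hy, hω, Seq.le (Finset.le_sup hy) h4⟩
  refine (measure_mono hsub).trans ((measure_biUnion_finset_le _ _).trans ?_)
  refine (Finset.sum_le_sum fun y hy => hn y hy).trans ?_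
  rw [Finset.sum_const, nsmul_eq_mul]
  exact ENNReal.mul_div_le

/-- The same in label form. -/
theorem pieces_bound_Pr {D : Set ℂ} {a b : ℂ} {A₁ A₂ : Set ℂ} (hD : Bornology.IsBounded D)
    (hne : D.Nonempty) (hA : IsArcs D a b A₁ A₂) (A : Approx D a b A₁ A₂) {ρ : ℝ} (hρ : 0 < ρ)
    {ε : ℝ} (hε : 0 < ε) : ∃ m : ℕ, ∀ᶠ n in atTop,
      Pr (EL (A.X n)) (fun S => Seq (fun a b => ρ ≤ dist
        (pt (A.δ n) (vx ((A.X n).toDEnv.cor S b))) (pt (A.δ n) (vx ((A.X n).toDEnv.cor S a))))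
        m ((A.X n).toDEnv.len S)) ≤ ε := by
  classical
  obtain ⟨m, hm⟩ := pieces_bound hD hne hA A hρ (ε := ENNReal.ofReal ε) (by simpa using hε)
  refine ⟨m, hm.mono fun n hn => ?_⟩
  rw [← ENNReal.ofReal_le_ofReal_iff hε.le, ← half_apply]
  refine le_trans (measure_mono ?_) hn
  rintro ω ⟨hω, hS⟩
  have hfin : ω.Finite := (A.X n).finite_free.subset hω
  obtain ⟨S, hS'⟩ : ∃ S : Finset (ℤ × ℤ), (S : Set (ℤ × ℤ)) = lb '' ω :=
    ⟨(hfin.image lb).toFinset, by rw [Set.Finite.coe_toFinset]⟩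
  refine ⟨hω, ?_⟩
  have h1 := hS S hS'
  rw [len_eq (A.X n) hω hS'] at h1
  refine Seq.imp ?_ h1
  intro u v _ _ h2
  unfold Pool.Agent.H69.Q1.DEnv.cor at h2
  rw [Pool.Agent.H81.Q1.toDEnv_W, Pool.Agent.H81.Q1.toDEnv_α, vx_corner _ hω hS',
    vx_corner _ hω hS'] at h2
  exact h2

end Pool.Agent.H57.Q1
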