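import Pool.Agent.H57.Q1.Tight

set_option autoImplicit false
open Set Topology MeasureTheory Filter
open scoped unitInterval

/-! Tightness of the laws of the exploration paths, reduced to crossings by the vertices of the
corner sequence. -/

namespace Pool.Agent.H57.Q1

open Pool.Agent.H81.Q1

/-- The points `p 0, …, p n` cross the annulus `A(x; r, R)` at least `k` times from the inside to
the outside. -/
def VCross (p : ℕ → ℂ) (n : ℕ) (x : ℂ) (r R : ℝ) (k : ℕ) : Prop :=
  ∃ a b : ℕ → ℕ, (∀ i < k, a i < b i ∧ b i ≤ n ∧ dist (p (a i)) x ≤ r ∧ R ≤ dist (p (b i)) x) ∧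
    ∀ i, i + 1 < k → b i ≤ a (i + 1)

lemma polyline_piece {p : ℕ → ℂ} {n i : ℕ} (hi : i < n) {t : I} (h0 : (i : ℝ) ≤ n * t)
    (h1 : (n : ℝ) * t ≤ i + 1) :
    (polyline p n).toC t = p i + (((n : ℝ) * t - i : ℝ) : ℂ) * (p (i + 1) - p i) := by
  change p 0 + ∑ i ∈ Finset.range n,
      ((min 1 (max 0 ((n : ℝ) * (t : ℝ) - i)) : ℝ) : ℂ) * (p (i + 1) - p i) = _
  have hsplit : Finset.range n = Finset.range i ∪ ({i} ∪ Finset.Ico (i + 1) n) := by
    ext j; simp only [Finset.mem_range, Finset.mem_union, Finset.mem_singleton, Finset.mem_Ico]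
    omega
  rw [hsplit, Finset.sum_union, Finset.sum_union, Finset.sum_singleton]
  · have e1 : ∑ j ∈ Finset.range i,
        ((min 1 (max 0 ((n : ℝ) * (t : ℝ) - j)) : ℝ) : ℂ) * (p (j + 1) - p j) = p i - p 0 := by
      rw [← Finset.sum_range_sub p i]
      refine Finset.sum_congr rfl fun j hj => ?_
      have hj' := Finset.mem_range.1 hj
      have h2 : (j : ℝ) + 1 ≤ i := by exact_mod_cast hj'
      rw [max_eq_right (by linarith), min_eq_left (by linarith)]
      simp
    have e2 : ∑ j ∈ Finset.Ico (i + 1) n,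
        ((min 1 (max 0 ((n : ℝ) * (t : ℝ) - j)) : ℝ) : ℂ) * (p (j + 1) - p j) = 0 := by
      refine Finset.sum_eq_zero fun j hj => ?_
      have hj' := (Finset.mem_Ico.1 hj).1
      have h2 : (i : ℝ) + 1 ≤ j := by exact_mod_cast hj'
      rw [max_eq_left (by linarith)]
      simp
    rw [e1, e2, max_eq_right (by linarith), min_eq_right (by linarith)]
    ring
  · rw [Finset.disjoint_left]
    intro j hj hj'
    simp only [Finset.mem_singleton, Finset.mem_Ico] at hj hj'
    omega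
  · rw [Finset.disjoint_left]
    intro j hj hj'
    simp only [Finset.mem_union, Finset.mem_singleton, Finset.mem_Ico, Finset.mem_range] at hj hj'
    omega

/-- the index of the last point before the time `t` -/
noncomputable def idx (n : ℕ) (t : I) : ℕ := ⌊(n : ℝ) * t⌋₊

lemma idx_mono (n : ℕ) : Monotone (idx n) := fun s t h =>
  Nat.floor_mono (mul_le_mul_of_nonneg_left (Subtype.coe_le_coe.2 h) (Nat.cast_nonneg n))

lemma idx_le (n : ℕ) (t : I) : idx n t ≤ n := by
  unfold idx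
  apply Nat.floor_le_of_le
  have := t.2.2
  have h := Nat.cast_nonneg (α := ℝ) n
  nlinarith

lemma dist_polyline {p : ℕ → ℂ} {n : ℕ} (hn : 0 < n) {d : ℝ} (hd : 0 ≤ d)
    (hp : ∀ i < n, dist (p i) (p (i + 1)) ≤ d) (t : I) :
    dist ((polyline p n).toC t) (p (idx n t)) ≤ d := by
  rcases lt_or_eq_of_le t.2.2 with ht | ht
  · obtain ⟨i, hi, h1, h2⟩ := exists_piece hn t.2.1 ht
    have e : idx n t = i := by
      unfold idx
      rw [Nat.floor_eq_iff (by have := t.2.1; positivity)]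
      exact ⟨h1, h2⟩
    rw [e, polyline_piece hi h1 h2.le, dist_eq_norm]
    have h3 := hp i hi
    rw [dist_eq_norm, norm_sub_rev] at h3
    rw [add_sub_cancel_left, norm_mul, Complex.norm_real, Real.norm_eq_abs,
      abs_of_nonneg (by linarith)]
    have h4 := norm_nonneg (p (i + 1) - p i)
    nlinarith
  · have e : idx n t = n := by
      unfold idx
      rw [ht, mul_one]; exact Nat.floor_natCast n
    have h5 : ((n - 1 : ℕ) : ℝ) = n - 1 := by
      rw [Nat.cast_sub (by omega)]; simp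
    rw [e, polyline_piece (i := n - 1) (by omega) (by rw [ht, h5]; linarith)
      (by rw [ht, h5]; linarith), show n - 1 + 1 = n by omega, ht, h5]
    have e2 : p (n - 1) + (((n : ℝ) * 1 - (n - 1) : ℝ) : ℂ) * (p n - p (n - 1)) = p n := by
      push_cast; ring
    rw [e2, dist_self]
    exact hd

/-- Crossings of a polygonal line give crossings by its vertices, up to an error. -/
theorem VCross_of_Cross {p p' : ℕ → ℂ} {n n' : ℕ} (hn : 0 < n) {d d' : ℝ} (hd : 0 ≤ d)
    (hp : ∀ i < n, dist (p i) (p (i + 1)) ≤ d) {φ : ℕ → ℕ} (hφ : Monotone φ)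
    (hφ' : ∀ i ≤ n, φ i ≤ n' ∧ dist (p i) (p' (φ i)) ≤ d') {x : ℂ} {r R : ℝ} {k : ℕ}
    (hr : r + (d + d') < R - (d + d')) (h : Cross (polyline p n) x r R k) :
    VCross p' n' x (r + (d + d')) (R - (d + d')) k := by
  obtain ⟨a, b, h1, h2⟩ := h
  have hdist : ∀ t : I, dist ((polyline p n).toC t) (p' (φ (idx n t))) ≤ d + d' := fun t =>
    (dist_triangle _ (p (idx n t)) _).trans
      (add_le_add (dist_polyline hn hd hp t) (hφ' _ (idx_le n t)).2)
  refine ⟨fun i => φ (idx n (a i)), fun i => φ (idx n (b i)), fun i hi => ?_, fun i hi => ?_⟩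
  · obtain ⟨h3, h4, h5⟩ := h1 i hi
    have h6 : dist (p' (φ (idx n (a i)))) x ≤ r + (d + d') := by
      have := dist_triangle (p' (φ (idx n (a i)))) ((polyline p n).toC (a i)) x
      have h7 := hdist (a i)
      rw [dist_comm] at h7
      linarith
    have h8 : R - (d + d') ≤ dist (p' (φ (idx n (b i)))) x := by
      have := dist_triangle ((polyline p n).toC (b i)) (p' (φ (idx n (b i)))) x
      have h7 := hdist (b i)
      linarith
    refine ⟨?_, (hφ' _ (idx_le n _)).1, h6, h8⟩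
    rcases lt_or_eq_of_le (hφ (idx_mono n h3.le)) with h9 | h9
    · exact h9
    · rw [h9] at h6
      linarith
  · exact hφ (idx_mono n (h2 i hi))

section mid

lemma norm_pt_dir (δ : ℝ) (hδ : 0 < δ) (q : ZMod 4) : ‖pt δ (dir q)‖ = δ := by
  have : ∀ z : ℂ, ‖z‖ = Real.sqrt (z.re * z.re + z.im * z.im) := fun z => by
    rw [Complex.norm_def, Complex.normSq_apply]
  rw [this]
  unfold pt dir
  have hsq : Real.sqrt (δ * δ) = δ := Real.sqrt_mul_self hδ.le
  split_ifs <;> simp [hsq]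

lemma pt_add (δ : ℝ) (u v : ℤ × ℤ) : pt δ (u + v) = pt δ u + pt δ v := by
  apply Complex.ext
  · simp [pt]; ring
  · simp [pt]; ring

lemma dist_mid_left {δ : ℝ} (hδ : 0 < δ) (v : ℤ × ℤ) (q : ZMod 4) :
    dist (DDomain.mid δ v q) (pt δ v) = δ / 2 := by
  unfold DDomain.mid
  rw [pt_add, dist_eq_norm]
  have e : (pt δ v + (pt δ v + pt δ (dir q))) / 2 - pt δ v = pt δ (dir q) / 2 := by ring
  rw [e, norm_div, norm_pt_dir δ hδ]
  norm_num

lemma dist_mid_right {δ : ℝ} (hδ : 0 < δ) (v : ℤ × ℤ) (q : ZMod 4) :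
    dist (DDomain.mid δ v q) (pt δ (v + dir q)) = δ / 2 := by
  unfold DDomain.mid
  rw [pt_add, dist_eq_norm]
  have e : (pt δ v + (pt δ v + pt δ (dir q))) / 2 - (pt δ v + pt δ (dir q)) =
      -(pt δ (dir q) / 2) := by ring
  rw [e, norm_neg, norm_div, norm_pt_dir δ hδ]
  norm_num

end mid

section explore
variable {δ : ℝ} (X : DDomain)

lemma corner_succ (ω : Set (Sym2 (ℤ × ℤ))) (i : ℕ) :
    X.corner ω (i + 1) = next (ω ∪ X.arc) (X.corner ω i) := by
  unfold DDomain.corner
  rw [Function.iterate_succ_apply']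

lemma dist_vertex (hδ : 0 < δ) (ω : Set (Sym2 (ℤ × ℤ))) (i : ℕ) :
    dist (X.vertex δ ω i) (pt δ (X.corner ω i).1) ≤ δ / 2 := by
  cases i with
  | zero =>
    have : X.corner ω 0 = X.α := rfl
    rw [this]
    exact (dist_mid_left hδ _ _).le
  | succ i =>
    rw [corner_succ]
    show dist (DDomain.mid δ (X.corner ω i).1 (X.corner ω i).2) _ ≤ _
    unfold next
    split_ifs
    · exact (dist_mid_right hδ _ _).le
    · exact (dist_mid_left hδ _ _).le

lemma dist_vertex_succ (hδ : 0 < δ) (ω : Set (Sym2 (ℤ × ℤ))) (i : ℕ) :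
    dist (X.vertex δ ω (i + 1)) (pt δ (X.corner ω i).1) ≤ δ / 2 :=
  (dist_mid_left hδ _ _).le

lemma corner_mem {ω : Set (Sym2 (ℤ × ℤ))} (hω : ω ⊆ X.free) (i : ℕ) : (X.corner ω i).1 ∈ X.V := by
  induction i with
  | zero => exact X.memα
  | succ i ih =>
    rw [corner_succ]
    unfold next
    split_ifs with h
    · have h1 : (X.corner ω i).edge ∈ edges X.V := by
        rcases h with h | h
        · exact X.subE (X.free_sub (hω h))
        · exact X.subE (X.arc_sub h)
      exact h1.2 _ (by simp [Corner.edge])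
    · exact ih

lemma norm_corner {R0 : ℝ} (hR : ∀ v ∈ X.V, ‖pt δ v‖ ≤ R0) {ω : Set (Sym2 (ℤ × ℤ))} (hω : ω ⊆ X.free)
    (i : ℕ) : ‖pt δ (X.corner ω i).1‖ ≤ R0 :=
  hR _ (corner_mem X hω i)

lemma norm_explore (hδ : 0 < δ) {R0 : ℝ} (hR : ∀ v ∈ X.V, ‖pt δ v‖ ≤ R0) {ω : Set (Sym2 (ℤ × ℤ))}
    (hω : ω ⊆ X.free) (t : I) :
    ‖(polyline (X.vertex δ ω) (X.len ω + 1)).toC t‖ ≤ R0 + 2 * δ := by
  have h1 : ∀ i < X.len ω + 1, dist (X.vertex δ ω i) (X.vertex δ ω (i + 1)) ≤ δ := fun i _ => by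
    have a := dist_vertex X hδ ω i
    have b := dist_vertex_succ X hδ ω i
    rw [dist_comm] at b
    linarith [dist_triangle (X.vertex δ ω i) (pt δ (X.corner ω i).1) (X.vertex δ ω (i + 1))]
  have h2 := dist_polyline (p := X.vertex δ ω) (n := X.len ω + 1) (by omega) hδ.le h1 t
  have h3 := dist_vertex X hδ ω (idx (X.len ω + 1) t)
  have h4 := norm_corner X hR hω (idx (X.len ω + 1) t)
  have h5 := dist_triangle ((polyline (X.vertex δ ω) (X.len ω + 1)).toC t)
    (X.vertex δ ω (idx (X.len ω + 1) t)) (pt δ (X.corner ω (idx (X.len ω + 1) t)).1)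
  have h6 : ‖(polyline (X.vertex δ ω) (X.len ω + 1)).toC t‖ ≤
      dist ((polyline (X.vertex δ ω) (X.len ω + 1)).toC t)
        (pt δ (X.corner ω (idx (X.len ω + 1) t)).1) +
      ‖pt δ (X.corner ω (idx (X.len ω + 1) t)).1‖ := by
    rw [dist_eq_norm]
    have := norm_add_le ((polyline (X.vertex δ ω) (X.len ω + 1)).toC t -
        (pt δ (X.corner ω (idx (X.len ω + 1) t)).1)) (pt δ (X.corner ω (idx (X.len ω + 1) t)).1)
    rwa [sub_add_cancel] at this
  linarith

/-- Crossings of the exploration path give crossings by the vertices of its corners. -/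
lemma VCross_explore (hδ : 0 < δ) (ω : Set (Sym2 (ℤ × ℤ))) {x : ℂ} {r R : ℝ} {k : ℕ}
    (hr : r + 2 * δ < R - 2 * δ)
    (h : Cross (polyline (X.vertex δ ω) (X.len ω + 1)) x r R k) :
    VCross (fun i => pt δ (X.corner ω i).1) (X.len ω) x (r + 2 * δ) (R - 2 * δ) k := by
  have h1 : ∀ i < X.len ω + 1, dist (X.vertex δ ω i) (X.vertex δ ω (i + 1)) ≤ δ := fun i _ => by
    have a := dist_vertex X hδ ω i
    have b := dist_vertex_succ X hδ ω i
    rw [dist_comm] at b
    linarith [dist_triangle (X.vertex δ ω i) (pt δ (X.corner ω i).1) (X.vertex δ ω (i + 1))]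
  have h2 : ∀ i ≤ X.len ω + 1, min i (X.len ω) ≤ X.len ω ∧
      dist (X.vertex δ ω i) (pt δ (X.corner ω (min i (X.len ω))).1) ≤ δ := by
    intro i hi
    refine ⟨min_le_right _ _, ?_⟩
    rcases Nat.lt_or_ge (X.len ω) i with h3 | h3
    · have e : i = X.len ω + 1 := by omega
      rw [min_eq_right h3.le, e]
      have := dist_vertex_succ X hδ ω (X.len ω)
      linarith
    · rw [min_eq_left h3]
      have := dist_vertex X hδ ω i
      linarith
  have h4 := VCross_of_Cross (p' := fun i => pt δ (X.corner ω i).1) (n' := X.len ω)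
    (by omega) hδ.le h1 (φ := fun i => min i (X.len ω)) (fun i j hij => min_le_min_right _ hij) h2
    (x := x) (r := r) (R := R) (k := k) (by linarith) h
  rwa [show δ + δ = 2 * δ by ring] at h4

end explore

lemma halfPMF_support {ι : Type} (E : Set ι) (hE : E.Finite) {s : Set ι}
    (hs : s ∈ (halfPMF E hE).support) : s ⊆ E := by
  classical
  unfold halfPMF at hs
  rw [PMF.support_map, PMF.support_uniformOfFinset] at hs
  obtain ⟨t, ht, rfl⟩ := hs
  intro x hx
  have h1 := Finset.mem_powerset.1 (Finset.mem_coe.1 ht)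
  simpa using h1 hx

lemma halfPMF_support_finite {ι : Type} (E : Set ι) (hE : E.Finite) :
    (halfPMF E hE).support.Finite := by
  unfold halfPMF
  rw [PMF.support_map, PMF.support_uniformOfFinset]
  exact (Finset.finite_toSet _).image _

/-- **Tightness of the exploration paths from crossing estimates for the corner sequence.** -/
theorem tight_of_VCross {D : Set ℂ} {a b : ℂ} {A₁ A₂ : Set ℂ} (hD : Bornology.IsBounded D)
    (hne : D.Nonempty) (A : Approx D a b A₁ A₂)
    {Λ : ℝ} (hΛ : 1 ≤ Λ)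
    (h : ∀ (x : ℂ) (r R : ℝ), 0 < r → Λ * r ≤ R → ∀ ε : ENNReal, 0 < ε → ∃ k : ℕ, ∀ᶠ n in atTop,
      (halfPMF (A.X n).free (A.X n).finite_free).toOuterMeasure
        {ω | ω ⊆ (A.X n).free ∧ VCross (fun i => pt (A.δ n) ((A.X n).corner ω i).1)
          ((A.X n).len ω) x r R k} ≤ ε) :
    IsTightMeasureSet {((A.law n : ProbabilityMeasure Curve) : Measure Curve) | n} := by
  obtain ⟨R1, hR1'⟩ := A.bounded hD hne
  obtain ⟨M, hM⟩ := A.lim.bddAbove_range
  have hM' : ∀ n, A.δ n ≤ M := fun n => hM ⟨n, rfl⟩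
  have key := tight_of_cross_eventually
    (fun n => halfPMF (A.X n).free (A.X n).finite_free)
    (fun n => halfPMF_support_finite _ _)
    (fun n ω => polyline ((A.X n).vertex (A.δ n) ω) ((A.X n).len ω + 1)) (R0 := R1 + 2 * M) ?_
    (Λ := 2 * Λ + 1) (by linarith) ?_
  · exact key
  · intro n ω hω t
    have h1 := norm_explore (A.X n) (A.pos n) (hR1' n) (halfPMF_support _ _ hω) t
    have h2 := hM' n
    linarith
  · intro x r R hr hΛR hR ε hε
    set s := r with hs
    have hR3 : 3 * s ≤ R := by nlinarith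
    obtain ⟨k, hk⟩ := h x (r + s) (R - s) (by linarith) (by linarith) ε hε
    refine ⟨k, ?_⟩
    have hsmall : ∀ᶠ n in atTop, A.δ n < s / 2 := A.lim.eventually_lt_const (by linarith)
    filter_upwards [hk, hsmall] with n hn hn'
    refine le_trans (PMF.toOuterMeasure_mono _ ?_) hn
    rintro ω ⟨hω, hsup⟩
    refine ⟨halfPMF_support _ _ hsup, ?_⟩
    obtain ⟨u, v, h1, h2⟩ := VCross_explore (A.X n) (A.pos n) ω (by linarith) hω
    exact ⟨u, v, fun i hi => ⟨(h1 i hi).1, (h1 i hi).2.1, (h1 i hi).2.2.1.trans (by linarith),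
      le_trans (by linarith) (h1 i hi).2.2.2⟩, h2⟩

end Pool.Agent.H57.Q1
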