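import Pool.Agent.H81.Q1.Reduction

set_option autoImplicit false
open Set Topology MeasureTheory Filter
open scoped unitInterval

/-! Relative compactness in the space of curves: curves in a ball with a bounded number of steps
of size `ε` for every `ε`. -/

namespace Pool.Agent.H57.Q1

open Pool.Agent.H81.Q1

/-- `g` splits into `m` pieces of diameter at most `ε`. -/
def Steps (g : PCurve) (ε : ℝ) (m : ℕ) : Prop :=
  ∃ t : ℕ → I, t 0 = 0 ∧ t m = 1 ∧ (∀ i < m, t i < t (i + 1)) ∧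
    ∀ i < m, ∀ x y : I, t i ≤ x → x ≤ t (i + 1) → t i ≤ y → y ≤ t (i + 1) →
      dist (g.toC x) (g.toC y) ≤ ε

/-- the clamp function -/
noncomputable def clp (x : ℝ) : ℝ := min 1 (max 0 x)

lemma clp_mono {x y : ℝ} (h : x ≤ y) : clp x ≤ clp y := by
  unfold clp; exact min_le_min_left _ (max_le_max_left _ h)

lemma clp_of_nonpos {x : ℝ} (h : x ≤ 0) : clp x = 0 := by
  unfold clp; rw [max_eq_left h]; norm_num

lemma clp_of_one_le {x : ℝ} (h : 1 ≤ x) : clp x = 1 := by
  unfold clp; rw [max_eq_right (by linarith)]; exact min_eq_left h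

lemma clp_of_mem {x : ℝ} (h0 : 0 ≤ x) (h1 : x ≤ 1) : clp x = x := by
  unfold clp; rw [max_eq_right h0]; exact min_eq_right h1

lemma clp_continuous : Continuous clp := by unfold clp; fun_prop

/-- piecewise linear function with values `t i` at `i / m` -/
noncomputable def pw (t : ℕ → ℝ) (m : ℕ) (x : ℝ) : ℝ :=
  t 0 + ∑ i ∈ Finset.range m, (t (i + 1) - t i) * clp (m * x - i)

lemma pw_continuous (t : ℕ → ℝ) (m : ℕ) : Continuous (pw t m) := by
  unfold pw
  refine continuous_const.add (continuous_finsetSum _ fun i _ => continuous_const.mul ?_)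
  exact clp_continuous.comp (by fun_prop)

lemma pw_mono {t : ℕ → ℝ} {m : ℕ} (ht : ∀ i < m, t i < t (i + 1)) : Monotone (pw t m) := by
  intro x y h
  unfold pw
  refine add_le_add_right (Finset.sum_le_sum fun i hi => ?_) _
  have h1 := ht i (Finset.mem_range.1 hi)
  refine mul_le_mul_of_nonneg_left (clp_mono ?_) (by linarith)
  have : (0 : ℝ) ≤ m := Nat.cast_nonneg m
  nlinarith

lemma pw_piece {t : ℕ → ℝ} {m i : ℕ} (hi : i < m) {x : ℝ} (h0 : (i : ℝ) ≤ m * x)
    (h1 : m * x ≤ i + 1) : pw t m x = t i + (t (i + 1) - t i) * (m * x - i) := by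
  unfold pw
  have hsplit : Finset.range m = Finset.range i ∪ ({i} ∪ Finset.Ico (i + 1) m) := by
    ext j; simp only [Finset.mem_range, Finset.mem_union, Finset.mem_singleton, Finset.mem_Ico]
    omega
  rw [hsplit, Finset.sum_union, Finset.sum_union, Finset.sum_singleton]
  · have e1 : ∑ j ∈ Finset.range i, (t (j + 1) - t j) * clp (m * x - j) = t i - t 0 := by
      rw [← Finset.sum_range_sub t i]
      refine Finset.sum_congr rfl fun j hj => ?_
      have hj' := Finset.mem_range.1 hj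
      rw [clp_of_one_le, mul_one]
      have : (j : ℝ) + 1 ≤ i := by exact_mod_cast hj'
      linarith
    have e2 : ∑ j ∈ Finset.Ico (i + 1) m, (t (j + 1) - t j) * clp (m * x - j) = 0 := by
      refine Finset.sum_eq_zero fun j hj => ?_
      have hj' := (Finset.mem_Ico.1 hj).1
      rw [clp_of_nonpos, mul_zero]
      have : (i : ℝ) + 1 ≤ j := by exact_mod_cast hj'
      linarith
    rw [e1, e2, clp_of_mem (by linarith) (by linarith)]
    ring
  · rw [Finset.disjoint_left]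
    intro j hj hj'
    simp only [Finset.mem_singleton, Finset.mem_Ico] at hj hj'
    omega
  · rw [Finset.disjoint_left]
    intro j hj hj'
    simp only [Finset.mem_union, Finset.mem_singleton, Finset.mem_Ico, Finset.mem_range] at hj hj'
    omega

lemma exists_piece {m : ℕ} (hm : 0 < m) {x : ℝ} (h0 : 0 ≤ x) (h1 : x < 1) :
    ∃ i < m, (i : ℝ) ≤ m * x ∧ m * x < i + 1 := by
  have hm' : (0 : ℝ) < m := by exact_mod_cast hm
  refine ⟨⌊(m : ℝ) * x⌋₊, ?_, Nat.floor_le (by positivity), Nat.lt_floor_add_one _⟩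
  rw [Nat.floor_lt (by positivity)]
  nlinarith

lemma pw_strict {t : ℕ → ℝ} {m : ℕ} (hm : 0 < m) (ht : ∀ i < m, t i < t (i + 1)) {x y : ℝ}
    (h0 : 0 ≤ x) (h : x < y) (h1 : y ≤ 1) : pw t m x < pw t m y := by
  obtain ⟨i, hi, h2, h3⟩ := exists_piece hm h0 (lt_of_lt_of_le h h1)
  have hm' : (0 : ℝ) < m := by exact_mod_cast hm
  have hti := ht i hi
  set z : ℝ := min y ((i + 1) / m) with hz
  have hxz : x < z := by
    rw [hz, lt_min_iff]
    refine ⟨h, ?_⟩
    rw [lt_div_iff₀ hm']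
    linarith
  have hz1 : m * z ≤ i + 1 := by
    have : z ≤ (i + 1) / m := min_le_right _ _
    rw [le_div_iff₀ hm'] at this
    linarith
  have hz0 : (i : ℝ) ≤ m * z := by nlinarith
  have e1 := pw_piece (t := t) hi h2 h3.le
  have e2 := pw_piece (t := t) hi hz0 hz1
  have h4 : pw t m z ≤ pw t m y := pw_mono ht (min_le_left _ _)
  have h5 : (t (i + 1) - t i) * (m * x - i) < (t (i + 1) - t i) * (m * z - i) := by
    apply mul_lt_mul_of_pos_left _ (by linarith)
    nlinarith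
  linarith

/-- A reparametrisation which maps the uniform subdivision to a given one. -/
lemma exists_rep_breaks {m : ℕ} (hm : 0 < m) {t : ℕ → I} (t0 : t 0 = 0) (tm : t m = 1)
    (ht : ∀ i < m, t i < t (i + 1)) :
    ∃ u : Rep, ∀ i < m, ∀ x : I, (i : ℝ) ≤ m * x → m * (x : ℝ) ≤ i + 1 →
      t i ≤ u x ∧ u x ≤ t (i + 1) := by
  set s : ℕ → ℝ := fun i => (t i : ℝ) with hs
  have hs' : ∀ i < m, s i < s (i + 1) := fun i hi => ht i hi
  have hm' : (0 : ℝ) < m := by exact_mod_cast hm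
  have f0 : pw s m 0 = 0 := by
    rw [pw_piece (i := 0) hm (by simp) (by simp)]
    simp [hs, t0]
  have f1 : pw s m 1 = 1 := by
    rw [pw_piece (i := m - 1) (by omega)]
    · have e : ((m - 1 : ℕ) : ℝ) = m - 1 := by
        rw [Nat.cast_sub (by omega)]; simp
      rw [e, show m - 1 + 1 = m by omega]
      have : s m = 1 := by simp [hs, tm]
      rw [this]
      ring
    · rw [mul_one]; exact_mod_cast Nat.sub_le m 1
    · rw [mul_one]
      have e : ((m - 1 : ℕ) : ℝ) = m - 1 := by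
        rw [Nat.cast_sub (by omega)]; simp
      rw [e]; linarith
  have hmem : ∀ x : I, pw s m x ∈ Icc (0 : ℝ) 1 := by
    intro x
    constructor
    · rw [← f0]; exact pw_mono hs' x.2.1
    · rw [← f1]; exact pw_mono hs' x.2.2
  let f : I → I := fun x => ⟨pw s m x, hmem x⟩
  have hf : StrictMono f := by
    intro x y h
    exact pw_strict hm hs' x.2.1 h y.2.2
  have hsurj : Function.Surjective f := by
    intro y
    have h1 := intermediate_value_Icc (show (0 : ℝ) ≤ 1 by norm_num)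
      (pw_continuous s m).continuousOn
    rw [f0, f1] at h1
    obtain ⟨x, hx, hxy⟩ := h1 y.2
    exact ⟨⟨x, hx⟩, Subtype.ext hxy⟩
  refine ⟨hf.orderIsoOfSurjective f hsurj, ?_⟩
  intro i hi x h0 h1
  have e : ((hf.orderIsoOfSurjective f hsurj x : I) : ℝ) = s i + (s (i + 1) - s i) * (m * x - i) :=
    pw_piece hi h0 h1
  have h2 := hs' i hi
  constructor
  · rw [← Subtype.coe_le_coe, e]
    show s i ≤ _
    nlinarith
  · rw [← Subtype.coe_le_coe, e]
    show _ ≤ s (i + 1)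
    nlinarith

/-- Two curves with the same number of steps and the same positions (up to `ε`) are close. -/
lemma cdist_le_of_labels {g h : PCurve} {ε : ℝ} {m : ℕ} {t s : ℕ → I} (hm : 0 < m)
    (t0 : t 0 = 0) (tm : t m = 1) (ht : ∀ i < m, t i < t (i + 1))
    (hg : ∀ i < m, ∀ x y : I, t i ≤ x → x ≤ t (i + 1) → t i ≤ y → y ≤ t (i + 1) →
      dist (g.toC x) (g.toC y) ≤ ε)
    (s0 : s 0 = 0) (sm : s m = 1) (hs : ∀ i < m, s i < s (i + 1))
    (hh : ∀ i < m, ∀ x y : I, s i ≤ x → x ≤ s (i + 1) → s i ≤ y → y ≤ s (i + 1) →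
      dist (h.toC x) (h.toC y) ≤ ε)
    {l : ℕ → ℂ} (hgl : ∀ i < m, dist (g.toC (t i)) (l i) ≤ ε)
    (hhl : ∀ i < m, dist (h.toC (s i)) (l i) ≤ ε) : cdist g h ≤ 4 * ε := by
  obtain ⟨u, hu⟩ := exists_rep_breaks hm t0 tm ht
  obtain ⟨v, hv⟩ := exists_rep_breaks hm s0 sm hs
  refine (ciInf_le (bdd_below g h) (u, v)).trans ?_
  unfold supd
  refine ciSup_le fun x => ?_
  have hm' : (0 : ℝ) < m := by exact_mod_cast hm
  have key : ∃ i < m, (i : ℝ) ≤ m * x ∧ m * (x : ℝ) ≤ i + 1 := by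
    rcases lt_or_eq_of_le x.2.2 with hx | hx
    · obtain ⟨i, hi, h1, h2⟩ := exists_piece hm x.2.1 hx
      exact ⟨i, hi, h1, h2.le⟩
    · refine ⟨m - 1, by omega, ?_, ?_⟩
      · rw [hx, mul_one]; exact_mod_cast Nat.sub_le m 1
      · rw [hx, mul_one]
        have e : ((m - 1 : ℕ) : ℝ) = m - 1 := by
          rw [Nat.cast_sub (by omega)]; simp
        rw [e]; linarith
  obtain ⟨i, hi, h1, h2⟩ := key
  obtain ⟨u1, u2⟩ := hu i hi x h1 h2
  obtain ⟨v1, v2⟩ := hv i hi x h1 h2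
  have a1 := hg i hi (u x) (t i) u1 u2 le_rfl (ht i hi).le
  have a2 := hgl i hi
  have a3 := hhl i hi
  have a4 := hh i hi (s i) (v x) le_rfl (hs i hi).le v1 v2
  calc dist (g.toC (u x)) (h.toC (v x))
      ≤ dist (g.toC (u x)) (g.toC (t i)) + dist (g.toC (t i)) (l i)
        + (dist (l i) (h.toC (s i)) + dist (h.toC (s i)) (h.toC (v x))) := by
        refine (dist_triangle _ (l i) _).trans ?_
        refine add_le_add (dist_triangle _ _ _) (dist_triangle _ _ _)
    _ ≤ 4 * ε := by rw [dist_comm (l i)]; linarith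

lemma Steps.pos {g : PCurve} {ε : ℝ} {m : ℕ} (h : Steps g ε m) : 0 < m := by
  obtain ⟨t, t0, tm, -, -⟩ := h
  rcases Nat.eq_zero_or_pos m with rfl | hm
  · rw [t0] at tm
    have := congrArg (Subtype.val) tm
    simp at this
  · exact hm

/-- The curves in the ball of radius `R0` with at most `M j` steps of size `e j`, for all `j`. -/
def KK (R0 : ℝ) (e : ℕ → ℝ) (M : ℕ → ℕ) : Set Curve :=
  {c | ∃ g : PCurve, Curve.mk g = c ∧ (∀ t, ‖g.toC t‖ ≤ R0) ∧
    ∀ j, ∃ m ≤ M j, Steps g (e j) m}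

theorem totallyBounded_KK {R0 : ℝ} {e : ℕ → ℝ} (he0 : ∀ j, 0 < e j)
    (he : ∀ ε > 0, ∃ j, e j < ε) (M : ℕ → ℕ) : TotallyBounded (KK R0 e M) := by
  refine Metric.totallyBounded_of_finite_discretization fun ε hε => ?_
  obtain ⟨j, hj⟩ := he (ε / 4) (by linarith)
  obtain ⟨P, hPf, hP⟩ := Metric.totallyBounded_iff.1
    (isCompact_closedBall (0 : ℂ) R0).totallyBounded (e j) (he0 j)
  -- labels
  have hlab : ∀ z : ℂ, ∃ p : Option P, ‖z‖ ≤ R0 → ∃ q : P, p = some q ∧ dist z q ≤ e j := by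
    intro z
    by_cases hz : ‖z‖ ≤ R0
    · have : z ∈ Metric.closedBall (0 : ℂ) R0 := by simpa using hz
      obtain ⟨q, hq, hzq⟩ := mem_iUnion₂.1 (hP this)
      exact ⟨some ⟨q, hq⟩, fun _ => ⟨⟨q, hq⟩, rfl, (Metric.mem_ball.1 hzq).le⟩⟩
    · exact ⟨none, fun h => absurd h hz⟩
  choose lab hlab using hlab
  have hdata : ∀ c : KK R0 e M, ∃ (g : PCurve) (m : ℕ) (t : ℕ → I), Curve.mk g = c.1 ∧
      (∀ t, ‖g.toC t‖ ≤ R0) ∧ m ≤ M j ∧ 0 < m ∧ t 0 = 0 ∧ t m = 1 ∧ (∀ i < m, t i < t (i + 1)) ∧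
      ∀ i < m, ∀ x y : I, t i ≤ x → x ≤ t (i + 1) → t i ≤ y → y ≤ t (i + 1) →
        dist (g.toC x) (g.toC y) ≤ e j := by
    rintro ⟨c, g, hg, hb, hs⟩
    obtain ⟨m, hm, hst⟩ := hs j
    have hpos := hst.pos
    obtain ⟨t, t0, tm, ht, hd⟩ := hst
    exact ⟨g, m, t, hg, hb, hm, hpos, t0, tm, ht, hd⟩
  choose g m t hg hb hm hpos t0 tm ht hd using hdata
  have : Fintype P := hPf.fintype
  refine ⟨Fin (M j + 1) × (Fin (M j + 1) → Option P), inferInstance,
    fun c => (⟨m c, by have := hm c; omega⟩, fun i => lab ((g c).toC (t c i))), ?_⟩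
  intro c c' hcc
  have h1 : m c = m c' := by
    have := congrArg (fun q => (Prod.fst q : Fin (M j + 1)).1) hcc
    exact this
  have h2 : ∀ i ≤ M j, lab ((g c).toC (t c i)) = lab ((g c').toC (t c' i)) := by
    intro i hi
    have := congrArg Prod.snd hcc
    exact congrFun this ⟨i, by omega⟩
  rw [← hg c, ← hg c', Curve.dist_mk]
  -- common labels
  have h3 : ∀ i : ℕ, ∃ z : ℂ, i < m c → dist ((g c).toC (t c i)) z ≤ e j ∧
      dist ((g c').toC (t c' i)) z ≤ e j := by
    intro i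
    by_cases hi : i < m c
    · obtain ⟨q, hq, hq'⟩ := hlab _ (hb c (t c i))
      obtain ⟨q', hq1, hq1'⟩ := hlab _ (hb c' (t c' i))
      have h4 := h2 i (by have := hm c; omega)
      rw [hq, hq1] at h4
      have h5 : q = q' := Option.some_injective _ h4
      subst h5
      exact ⟨q, fun _ => ⟨hq', hq1'⟩⟩
    · exact ⟨0, fun h => absurd h hi⟩
  choose l hl using h3
  have h6 : cdist (g c) (g c') ≤ 4 * e j := by
    refine cdist_le_of_labels (t := t c) (s := t c') (hpos c) (t0 c) (tm c) (ht c) (hd c) (t0 c')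
      (h1 ▸ tm c') (fun i hi => ht c' i (h1 ▸ hi)) (fun i hi => hd c' i (h1 ▸ hi))
      (l := l) (fun i hi => (hl i hi).1) (fun i hi => (hl i hi).2)
  linarith

theorem isCompact_closure_KK {R0 : ℝ} {e : ℕ → ℝ} (he0 : ∀ j, 0 < e j)
    (he : ∀ ε > 0, ∃ j, e j < ε) (M : ℕ → ℕ) : IsCompact (closure (KK R0 e M)) :=
  (totallyBounded_KK he0 he M).closure.isCompact_of_isClosed isClosed_closure

end Pool.Agent.H57.Q1
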