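import Mathlib

set_option autoImplicit false
open Finset

/-! # Disjoint paths from a flow

`net tl hd D S` : number of darts of `D` (with tail `tl c` and head `hd c`) leaving the set `S`
minus the number entering it. If `k ≤ net tl hd D S` for all `S` which contain `A` and do not meet
`B`, then `D` contains `k` pairwise disjoint paths from `A` to `B` (`flow_paths`). -/

namespace Pool.Agent.H57.Flow

variable {C V : Type*} [DecidableEq C] (tl hd : C → V)

open Classical in
/-- indicator of a set, as an integer -/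
noncomputable def ind (S : Set V) (v : V) : ℤ := if v ∈ S then 1 else 0

lemma ind_pos {S : Set V} {v : V} (h : v ∈ S) : ind S v = 1 := by simp [ind, h]
lemma ind_neg {S : Set V} {v : V} (h : v ∉ S) : ind S v = 0 := by simp [ind, h]

/-- net number of darts of `D` leaving `S` -/
noncomputable def net (D : Finset C) (S : Set V) : ℤ := ∑ c ∈ D, (ind S (tl c) - ind S (hd c))

/-- reachable along the darts of `D` -/
def Rch (D : Finset C) (u v : V) : Prop :=
  Relation.ReflTransGen (fun x y => ∃ c ∈ D, tl c = x ∧ hd c = y) u v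

omit [DecidableEq C] in
lemma Rch.mono {D D' : Finset C} (h : D ⊆ D') {u v : V} (hr : Rch tl hd D u v) :
    Rch tl hd D' u v := by
  refine Relation.ReflTransGen.mono ?_ _ _ hr
  rintro x y ⟨c, hc, h1⟩
  exact ⟨c, h hc, h1⟩

omit [DecidableEq C] in
/-- last exit from the starting vertex -/
lemma last_exit [DecidableEq V] {D : Finset C} {u v : V} (h : Rch tl hd D u v) :
    u = v ∨ ∃ c ∈ D, tl c = u ∧ Rch tl hd (D.filter fun c => tl c ≠ u) (hd c) v := by
  induction h with
  | refl => exact Or.inl rfl
  | @tail x y _ hxy ih =>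
    obtain ⟨e, he, h1, h2⟩ := hxy
    by_cases hx : x = u
    · right
      refine ⟨e, he, h1.trans hx, ?_⟩
      rw [h2]
      exact Relation.ReflTransGen.refl
    · rcases ih with ih | ⟨c, hc, h3, h4⟩
      · exact absurd ih.symm hx
      · right
        refine ⟨c, hc, h3, h4.tail ⟨e, mem_filter.2 ⟨he, ?_⟩, h1, h2⟩⟩
        rw [h1]
        exact hx

/-- a path without repetition -/
lemma simple_path : ∀ (n : ℕ) (D : Finset C), D.card ≤ n → ∀ (u v : V), Rch tl hd D u v →
    ∃ P ⊆ D, Rch tl hd P u v ∧ ∀ S : Set V, net tl hd P S = ind S u - ind S v := by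
  classical
  intro n
  induction n with
  | zero =>
    intro D hD u v h
    have h0 : D = ∅ := card_eq_zero.1 (by omega)
    subst h0
    have : u = v := by
      induction h with
      | refl => rfl
      | tail _ hxy _ => obtain ⟨c, hc, _⟩ := hxy; exact absurd hc (notMem_empty _)
    subst this
    exact ⟨∅, subset_rfl, Relation.ReflTransGen.refl, fun S => by simp [net]⟩
  | succ n ih =>
    intro D hD u v h
    rcases last_exit tl hd h with rfl | ⟨c, hc, h1, h2⟩
    · exact ⟨∅, empty_subset _, Relation.ReflTransGen.refl, fun S => by simp [net]⟩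
    · have hlt : (D.filter fun c => tl c ≠ u).card < D.card := by
        refine card_lt_card ((filter_subset _ _).ssubset_of_ne fun he => ?_)
        rw [← he] at hc
        exact (mem_filter.1 hc).2 h1
      obtain ⟨P, hP, h3, h4⟩ := ih _ (by omega) _ _ h2
      have hcP : c ∉ P := fun hcP => (mem_filter.1 (hP hcP)).2 h1
      refine ⟨insert c P, insert_subset hc (hP.trans (filter_subset _ _)), ?_, fun S => ?_⟩
      · exact Relation.ReflTransGen.head ⟨c, mem_insert_self _ _, h1, rfl⟩
          (h3.mono tl hd (subset_insert _ _))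
      · unfold net at h4 ⊢
        rw [sum_insert hcP, h4 S, h1]
        ring

/-- **Disjoint paths from a flow.** -/
theorem flow_paths (A B : Set V) : ∀ (k : ℕ) (D : Finset C),
    (∀ S : Set V, A ⊆ S → Disjoint S B → (k : ℤ) ≤ net tl hd D S) →
    ∃ P : Fin k → Finset C, (∀ i, P i ⊆ D) ∧ (∀ i j, i ≠ j → Disjoint (P i) (P j)) ∧
      ∀ i, ∃ u ∈ A, ∃ v ∈ B, Rch tl hd (P i) u v := by
  intro k
  induction k with
  | zero => intro D _; exact ⟨fun i => i.elim0, fun i => i.elim0, fun i => i.elim0, fun i => i.elim0⟩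
  | succ k ih =>
    intro D hD
    -- a path from `A` to `B`
    have h1 : ∃ u ∈ A, ∃ v ∈ B, Rch tl hd D u v := by
      by_contra hcon
      push Not at hcon
      have h2 := hD {v | ∃ u ∈ A, Rch tl hd D u v} (fun u hu => ⟨u, hu, Relation.ReflTransGen.refl⟩)
        (Set.disjoint_left.2 fun v ⟨u, hu, h3⟩ hv => hcon u hu v hv h3)
      have h3 : net tl hd D {v | ∃ u ∈ A, Rch tl hd D u v} ≤ 0 := by
        unfold net
        refine sum_nonpos fun c hc => ?_
        by_cases h4 : tl c ∈ {v | ∃ u ∈ A, Rch tl hd D u v}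
        · have h5 : hd c ∈ {v | ∃ u ∈ A, Rch tl hd D u v} := by
            obtain ⟨u, hu, h6⟩ := h4
            exact ⟨u, hu, h6.tail ⟨c, hc, rfl, rfl⟩⟩
          rw [ind_pos h4, ind_pos h5]; norm_num
        · rw [ind_neg h4]
          unfold ind
          split_ifs <;> norm_num
      push_cast at h2
      omega
    obtain ⟨u, hu, v, hv, h⟩ := h1
    obtain ⟨P0, hP0, h2, h3⟩ := simple_path tl hd D.card D le_rfl u v h
    have h4 : ∀ S : Set V, A ⊆ S → Disjoint S B → (k : ℤ) ≤ net tl hd (D \ P0) S := by
      intro S hS hSB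
      have h5 := hD S hS hSB
      have h6 : net tl hd (D \ P0) S + net tl hd P0 S = net tl hd D S := sum_sdiff hP0
      rw [h3 S, ind_pos (hS hu), ind_neg (fun h => Set.disjoint_left.1 hSB h hv)] at h6
      push_cast at h5
      omega
    obtain ⟨P, hP1, hP2, hP3⟩ := ih (D \ P0) h4
    refine ⟨Fin.cons P0 P, ?_, ?_, ?_⟩
    · intro i
      refine Fin.cases ?_ (fun i => ?_) i
      · exact hP0
      · exact (hP1 i).trans sdiff_subset
    · intro i j
      refine Fin.cases ?_ (fun i => ?_) i <;> refine Fin.cases ?_ (fun j => ?_) j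
      · exact fun h => absurd rfl h
      · intro _
        rw [Fin.cons_zero, Fin.cons_succ]
        exact disjoint_left.2 fun c h5 h6 => (mem_sdiff.1 (hP1 j h6)).2 h5
      · intro _
        rw [Fin.cons_zero, Fin.cons_succ]
        exact disjoint_left.2 fun c h5 h6 => (mem_sdiff.1 (hP1 i h5)).2 h6
      · intro h5
        rw [Fin.cons_succ, Fin.cons_succ]
        exact hP2 i j fun h6 => h5 (congrArg _ h6)
    · intro i
      refine Fin.cases ?_ (fun i => ?_) i
      · exact ⟨u, hu, v, hv, h2⟩
      · rw [Fin.cons_succ]; exact hP3 i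

/-- Deleting pairs of opposite darts does not change the flow. -/
lemma net_cancel (r : C → C) (hr : ∀ c, r (r c) = c) (hne : ∀ c, r c ≠ c) {D : Finset C}
    (ht : ∀ c ∈ D, r c ∈ D → tl (r c) = hd c ∧ hd (r c) = tl c) (S : Set V) :
    net tl hd (D.filter fun c => r c ∉ D) S = net tl hd D S := by
  unfold net
  rw [← sum_filter_add_sum_filter_not D (fun c => r c ∉ D)]
  rw [left_eq_add]
  refine sum_involution (fun c _ => r c) ?_ ?_ ?_ ?_
  · intro c hc
    rw [mem_filter, not_not] at hc
    obtain ⟨h1, h2⟩ := ht c hc.1 hc.2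
    rw [h1, h2]; ring
  · intro c _ _; exact hne c
  · intro c hc
    rw [mem_filter, not_not] at hc ⊢
    exact ⟨hc.2, by rw [hr]; exact hc.1⟩
  · intro c _; exact hr c

end Pool.Agent.H57.Flow
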