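import Pool.Agent.H57.Q1.Compact

set_option autoImplicit false
open Set Topology MeasureTheory Filter
open scoped unitInterval

/-! A curve with few crossings of finitely many fixed annuli has a bounded number of steps. -/

namespace Pool.Agent.H57.Q1

open Pool.Agent.H81.Q1

/-- `g` crosses the annulus `A(x; r, R)` from the inside to the outside at least `k` times. -/
def Cross (g : PCurve) (x : ℂ) (r R : ℝ) (k : ℕ) : Prop :=
  ∃ a b : ℕ → I, (∀ i < k, a i < b i ∧ dist (g.toC (a i)) x ≤ r ∧ R ≤ dist (g.toC (b i)) x) ∧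
    ∀ i, i + 1 < k → b i ≤ a (i + 1)

lemma Cross.mono {g : PCurve} {x : ℂ} {r R : ℝ} {k l : ℕ} (hlk : l ≤ k) (h : Cross g x r R k) :
    Cross g x r R l := by
  obtain ⟨a, b, h1, h2⟩ := h
  exact ⟨a, b, fun i hi => h1 i (by omega), fun i hi => h2 i (by omega)⟩

lemma next_time (g : PCurve) {ε : ℝ} (hε : 0 < ε) (s : I) : ∃ t : I, s ≤ t ∧ (s < 1 → s < t) ∧
    (t = 1 ∨ ε ≤ dist (g.toC t) (g.toC s)) ∧
    ∀ u : I, s ≤ u → u ≤ t → dist (g.toC u) (g.toC s) ≤ ε := by
  have hcont : Continuous fun u : I => dist (g.toC u) (g.toC s) := by fun_prop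
  have hcl : IsClosed {t : I | s ≤ t ∧ (t = 1 ∨ ε ≤ dist (g.toC t) (g.toC s))} := by
    have e : {t : I | s ≤ t ∧ (t = 1 ∨ ε ≤ dist (g.toC t) (g.toC s))} =
        Ici s ∩ ({1} ∪ {t : I | ε ≤ dist (g.toC t) (g.toC s)}) := by
      ext t; simp
    rw [e]
    exact isClosed_Ici.inter (isClosed_singleton.union (isClosed_le continuous_const hcont))
  have hne : {t : I | s ≤ t ∧ (t = 1 ∨ ε ≤ dist (g.toC t) (g.toC s))}.Nonempty :=
    ⟨1, le_top, Or.inl rfl⟩
  obtain ⟨t, ⟨hst, ht⟩, hmin⟩ := hcl.isCompact.exists_isLeast hne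
  have hlt : ∀ u : I, s ≤ u → u < t → dist (g.toC u) (g.toC s) < ε := by
    intro u hu hut
    by_contra hcon
    push Not at hcon
    exact absurd (hmin ⟨hu, Or.inr hcon⟩) (not_le.2 hut)
  refine ⟨t, hst, ?_, ht, ?_⟩
  · intro hs
    rcases lt_or_eq_of_le hst with h | h
    · exact h
    · exfalso
      rcases ht with h1 | h1
      · rw [← h] at h1; exact hs.ne h1
      · rw [← h, dist_self] at h1; linarith
  · intro u hu hut
    rcases lt_or_eq_of_le hut with h | h
    · exact (hlt u hu h).le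
    · subst h
      rcases lt_or_eq_of_le hu with h1 | h1
      · -- limit of smaller times
        by_contra hcon
        push Not at hcon
        have hopen : IsOpen {w : I | ε < dist (g.toC w) (g.toC s)} :=
          isOpen_lt continuous_const hcont
        have hmem : u ∈ {w : I | ε < dist (g.toC w) (g.toC s)} := hcon
        have hcl2 : u ∈ closure (Iio u) := by
          have : (Iio u).Nonempty := ⟨s, h1⟩
          rw [closure_Iio' this]
          exact self_mem_Iic
        obtain ⟨w, hw1, hw2⟩ := mem_closure_iff.1 hcl2 _ (hopen.inter isOpen_Ioi) ⟨hmem, h1⟩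
        exact absurd hw1.1 (not_lt.2 (hlt w (le_of_lt hw1.2) hw2).le)
      · rw [← h1, dist_self]; exact hε.le

/-- the greedy sequence of times -/
noncomputable def tau (g : PCurve) {ε : ℝ} (hε : 0 < ε) : ℕ → I
  | 0 => 0
  | n + 1 => (next_time g hε (tau g hε n)).choose

section greedy
variable (g : PCurve) {ε : ℝ} (hε : 0 < ε)

lemma tau_spec (n : ℕ) : tau g hε n ≤ tau g hε (n + 1) ∧
    (tau g hε n < 1 → tau g hε n < tau g hε (n + 1)) ∧
    (tau g hε (n + 1) = 1 ∨ ε ≤ dist (g.toC (tau g hε (n + 1))) (g.toC (tau g hε n))) ∧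
    ∀ u : I, tau g hε n ≤ u → u ≤ tau g hε (n + 1) → dist (g.toC u) (g.toC (tau g hε n)) ≤ ε :=
  (next_time g hε (tau g hε n)).choose_spec

lemma tau_mono : Monotone (tau g hε) := monotone_nat_of_le_succ fun n => (tau_spec g hε n).1

/-- If the greedy sequence has reached `1` before `N`, there are at most `N` steps. -/
lemma steps_of_tau {N : ℕ} (h : tau g hε N = 1) : ∃ m ≤ N, Steps g (2 * ε) m := by
  classical
  have hex : ∃ n, tau g hε n = 1 := ⟨N, h⟩
  refine ⟨Nat.find hex, Nat.find_min' hex h, tau g hε, rfl, Nat.find_spec hex, ?_, ?_⟩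
  · intro i hi
    have h1 : tau g hε i ≠ 1 := Nat.find_min hex hi
    exact (tau_spec g hε i).2.1 (lt_of_le_of_ne le_top h1)
  · intro i _ x y hx1 hx2 hy1 hy2
    have a := (tau_spec g hε i).2.2.2 x hx1 hx2
    have b := (tau_spec g hε i).2.2.2 y hy1 hy2
    rw [dist_comm] at b
    linarith [dist_triangle (g.toC x) (g.toC (tau g hε i)) (g.toC y)]

include hε in
/-- **Many steps force many crossings of one of finitely many annuli.** -/
theorem steps_or_cross {R0 : ℝ} (hb : ∀ t, ‖g.toC t‖ ≤ R0) {P : Finset ℂ} {ρ : ℝ}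
    (hρ : ρ ≤ ε / 4) (hP : ∀ z : ℂ, ‖z‖ ≤ R0 → ∃ p ∈ P, dist z p ≤ ρ) (k : ℕ) :
    (∃ m ≤ P.card * k + 1, Steps g (2 * ε) m) ∨ ∃ p ∈ P, Cross g p ρ (3 * ε / 4) k := by
  classical
  set N := P.card * k + 1 with hN
  by_cases h1 : tau g hε N = 1
  · exact Or.inl (steps_of_tau g hε h1)
  right
  have hstep : ∀ i < N, tau g hε i < tau g hε (i + 1) ∧
      ε ≤ dist (g.toC (tau g hε (i + 1))) (g.toC (tau g hε i)) := by
    intro i hi
    have h2 : tau g hε (i + 1) ≠ 1 := by
      intro hcon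
      apply h1
      apply le_antisymm le_top
      exact hcon.symm.le.trans (tau_mono g hε hi)
    obtain ⟨a, b, c, -⟩ := tau_spec g hε i
    refine ⟨b ?_, c.resolve_left h2⟩
    exact lt_of_le_of_lt a (lt_of_le_of_ne le_top h2)
  -- labels
  choose lab hlab1 hlab2 using fun z : {z : ℂ // ‖z‖ ≤ R0} => hP z.1 z.2
  have hpig : ∃ p ∈ P, k < ((Finset.range N).filter
      (fun i => lab ⟨g.toC (tau g hε i), hb _⟩ = p)).card := by
    apply Finset.exists_lt_card_fiber_of_mul_lt_card_of_maps_to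
    · intro i _; exact hlab1 _
    · rw [Finset.card_range, hN]; omega
  obtain ⟨p, hp, hcard⟩ := hpig
  refine ⟨p, hp, ?_⟩
  set S := (Finset.range N).filter (fun i => lab ⟨g.toC (tau g hε i), hb _⟩ = p) with hS
  set f := S.orderEmbOfFin rfl with hf
  have hfS : ∀ j, f j ∈ S := fun j => Finset.orderEmbOfFin_mem S rfl j
  have hfl : ∀ j, f j < N := fun j => Finset.mem_range.1 (Finset.mem_filter.1 (hfS j)).1
  have hfp : ∀ j, dist (g.toC (tau g hε (f j))) p ≤ ρ := by
    intro j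
    have h3 := (Finset.mem_filter.1 (hfS j)).2
    have h4 := hlab2 ⟨g.toC (tau g hε (f j)), hb _⟩
    rw [h3] at h4
    exact h4
  let F : ℕ → ℕ := fun i => if h : i < S.card then f ⟨i, h⟩ else 0
  refine ⟨fun i => tau g hε (F i), fun i => tau g hε (F i + 1), ?_, ?_⟩
  · intro i hi
    have hi' : i < S.card := hi.trans hcard
    have e : F i = f ⟨i, hi'⟩ := dif_pos hi'
    simp only [e]
    obtain ⟨h5, h6⟩ := hstep _ (hfl ⟨i, hi'⟩)
    refine ⟨h5, hfp _, ?_⟩
    have h7 := hfp ⟨i, hi'⟩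
    have h8 := dist_triangle (g.toC (tau g hε (f ⟨i, hi'⟩ + 1))) p
      (g.toC (tau g hε (f ⟨i, hi'⟩)))
    rw [dist_comm p] at h8
    linarith
  · intro i hi
    have hi1 : i < S.card := by omega
    have hi2 : i + 1 < S.card := by omega
    have e1 : F i = f ⟨i, hi1⟩ := dif_pos hi1
    have e2 : F (i + 1) = f ⟨i + 1, hi2⟩ := dif_pos hi2
    simp only [e1, e2]
    apply tau_mono g hε
    have : f ⟨i, hi1⟩ < f ⟨i + 1, hi2⟩ := by
      rw [hf]
      exact (S.orderEmbOfFin rfl).strictMono (Fin.mk_lt_mk.2 (Nat.lt_succ_self i))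
    omega

end greedy

end Pool.Agent.H57.Q1
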