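import Pool.Agent.H57.Q1.Greedy

set_option autoImplicit false
open Set Topology MeasureTheory Filter
open scoped unitInterval

/-! Tightness criterion: the number of crossings of every fixed annulus is tight. -/

namespace Pool.Agent.H57.Q1

open Pool.Agent.H81.Q1

/-- A curve crosses a given annulus only finitely often. -/
theorem exists_not_cross (g : PCurve) (x : ℂ) {r R : ℝ} (h : r < R) : ∃ k, ¬ Cross g x r R k := by
  have huc : UniformContinuous g.toC := CompactSpace.uniformContinuous_of_continuous g.toC.continuous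
  obtain ⟨d, hd, hd'⟩ := Metric.uniformContinuous_iff.1 huc (R - r) (by linarith)
  obtain ⟨k, hk⟩ := exists_nat_gt (1 / d)
  refine ⟨k, ?_⟩
  rintro ⟨a, b, h1, h2⟩
  have hlen : ∀ i < k, d ≤ (b i : ℝ) - a i := by
    intro i hi
    by_contra hcon
    push Not at hcon
    obtain ⟨h3, h4, h5⟩ := h1 i hi
    have h3' : (a i : ℝ) < b i := h3
    have h6 : dist (b i) (a i) < d := by
      rw [Subtype.dist_eq, Real.dist_eq, abs_of_pos (by linarith)]
      exact hcon
    have h7 := hd' h6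
    have h8 := dist_triangle (g.toC (b i)) (g.toC (a i)) x
    linarith
  have hind : ∀ i < k, (i + 1) * d ≤ (b i : ℝ) := by
    intro i
    induction i with
    | zero =>
      intro hi
      have := hlen 0 hi
      have := (a 0).2.1
      simp only [Nat.cast_zero]
      linarith
    | succ i ih =>
      intro hi
      have h3 := ih (by omega)
      have h4 := hlen (i + 1) hi
      have h5 : (b i : ℝ) ≤ a (i + 1) := h2 i hi
      push_cast
      linarith
  rcases Nat.eq_zero_or_pos k with rfl | hk0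
  · have : 0 < 1 / d := by positivity
    simp at hk
    linarith
  · have h3 := hind (k - 1) (by omega)
    have h4 := (b (k - 1)).2.2
    have h5 : ((k - 1 : ℕ) : ℝ) + 1 = k := by
      rw [Nat.cast_sub (by omega)]; simp
    rw [h5] at h3
    rw [div_lt_iff₀ hd] at hk
    linarith

/-- **Tightness criterion.** -/
theorem tight_of_cross {ι : Type} {Ω : ι → Type} (q : ∀ i, PMF (Ω i)) (γ : ∀ i, Ω i → PCurve)
    {R0 : ℝ} (hb : ∀ i, ∀ ω ∈ (q i).support, ∀ t, ‖(γ i ω).toC t‖ ≤ R0) {Λ : ℝ} (hΛ : 1 ≤ Λ)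
    (h : ∀ (x : ℂ) (r R : ℝ), 0 < r → Λ * r ≤ R → r < R → ∀ ε : ENNReal, 0 < ε → ∃ k : ℕ, ∀ i,
      (q i).toOuterMeasure {ω | Cross (γ i ω) x r R k} ≤ ε) :
    IsTightMeasureSet {μ | ∃ i, ((q i).map fun ω => Curve.mk (γ i ω)).toMeasure = μ} := by
  rw [isTightMeasureSet_iff_exists_isCompact_measure_compl_le]
  intro ε hε
  obtain ⟨w, hw0, hw⟩ := ENNReal.exists_pos_sum_of_countable' hε.ne' ℕ
  -- scales
  set e : ℕ → ℝ := fun j => (1 / 2 : ℝ) ^ j with he
  have he0 : ∀ j, 0 < e j := fun j => by positivity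
  have he1 : ∀ η > 0, ∃ j, e j < η := fun η hη => exists_pow_lt_of_lt_one hη (by norm_num)
  have hΛ0 : 0 < Λ := by linarith
  have hΛe : ∀ j, Λ * ((e j / 2) / (4 * Λ)) = (e j / 2) / 4 := by
    intro j
    field_simp
  have hρ : ∀ j, (e j / 2) / (4 * Λ) ≤ (e j / 2) / 4 := by
    intro j
    have := he0 j
    rw [← hΛe j]
    have h5 : 0 ≤ (e j / 2) / (4 * Λ) := by positivity
    nlinarith
  -- nets
  have hnet : ∀ j, ∃ P : Finset ℂ, ∀ z : ℂ, ‖z‖ ≤ R0 → ∃ p ∈ P, dist z p ≤ (e j / 2) / (4 * Λ) := by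
    intro j
    obtain ⟨P, hPf, hP⟩ := Metric.totallyBounded_iff.1
      (isCompact_closedBall (0 : ℂ) R0).totallyBounded ((e j / 2) / (4 * Λ))
      (by have := he0 j; positivity)
    refine ⟨hPf.toFinset, fun z hz => ?_⟩
    have hz' : z ∈ Metric.closedBall (0 : ℂ) R0 := by simpa using hz
    obtain ⟨p, hp, hzp⟩ := mem_iUnion₂.1 (hP hz')
    exact ⟨p, by simpa using hp, (Metric.mem_ball.1 hzp).le⟩
  choose P hP using hnet
  -- numbers of crossings
  have hk : ∀ j, ∃ k : ℕ, ∀ p ∈ P j, ∀ i,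
      (q i).toOuterMeasure {ω | Cross (γ i ω) p ((e j / 2) / (4 * Λ)) (3 * (e j / 2) / 4) k} ≤
        w j / (P j).card := by
    intro j
    have hj := he0 j
    have h1 : ∀ p : ℂ, ∃ k : ℕ, ∀ i,
        (q i).toOuterMeasure {ω | Cross (γ i ω) p ((e j / 2) / (4 * Λ)) (3 * (e j / 2) / 4) k} ≤
          w j / (P j).card := fun p =>
      h p _ _ (by positivity) (by have h4 := hΛe j; linarith)
        (by have h4 := hρ j; linarith) _
        (ENNReal.div_pos (hw0 j).ne' (ENNReal.natCast_ne_top _))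
    choose k hk using h1
    refine ⟨(P j).sup k, fun p hp i => ?_⟩
    refine le_trans ?_ (hk p i)
    apply measure_mono
    intro ω hω
    exact Cross.mono (Finset.le_sup hp) hω
  choose k hk using hk
  refine ⟨closure (KK R0 e fun j => (P j).card * k j + 1), isCompact_closure_KK he0 he1 _, ?_⟩
  rintro _ ⟨i, rfl⟩
  have hmeas : MeasurableSet (closure (KK R0 e fun j => (P j).card * k j + 1))ᶜ :=
    isClosed_closure.measurableSet.compl
  rw [PMF.toMeasure_apply_eq_toOuterMeasure_apply _ hmeas, PMF.toOuterMeasure_map_apply]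
  have hsub : ((fun ω => Curve.mk (γ i ω)) ⁻¹'
      (closure (KK R0 e fun j => (P j).card * k j + 1))ᶜ) ∩ (q i).support ⊆
      ⋃ j, ⋃ p ∈ P j, {ω | Cross (γ i ω) p ((e j / 2) / (4 * Λ)) (3 * (e j / 2) / 4) (k j)} := by
    rintro ω ⟨hω, hs⟩
    by_contra hcon
    simp only [mem_iUnion, not_exists] at hcon
    apply hω
    apply subset_closure
    refine ⟨γ i ω, rfl, hb i ω hs, fun j => ?_⟩
    have hj := he0 j
    rcases steps_or_cross (γ i ω) (ε := e j / 2) (by positivity) (hb i ω hs) (hρ j) (hP j) (k j) with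
      ⟨m, hm, hst⟩ | ⟨p, hp, hc⟩
    · refine ⟨m, hm, ?_⟩
      rwa [show 2 * (e j / 2) = e j by ring] at hst
    · exact absurd hc (hcon j p hp)
  refine (PMF.toOuterMeasure_mono _ hsub).trans ?_
  refine (measure_iUnion_le _).trans ?_
  refine le_trans ?_ hw.le
  refine ENNReal.tsum_le_tsum fun j => ?_
  refine (measure_biUnion_finset_le _ _).trans ?_
  refine (Finset.sum_le_sum fun p hp => hk j p hp i).trans ?_
  rw [Finset.sum_const, nsmul_eq_mul]
  exact ENNReal.mul_div_le

/-- Version for sequences: the condition is only needed for large `n`, if the laws have finite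
support. -/
theorem tight_of_cross_eventually {Ω : ℕ → Type} (q : ∀ n, PMF (Ω n))
    (hfin : ∀ n, (q n).support.Finite) (γ : ∀ n, Ω n → PCurve)
    {R0 : ℝ} (hb : ∀ n, ∀ ω ∈ (q n).support, ∀ t, ‖(γ n ω).toC t‖ ≤ R0) {Λ : ℝ} (hΛ : 1 ≤ Λ)
    (h : ∀ (x : ℂ) (r R : ℝ), 0 < r → Λ * r ≤ R → r < R → ∀ ε : ENNReal, 0 < ε → ∃ k : ℕ,
      ∀ᶠ n in atTop, (q n).toOuterMeasure {ω | Cross (γ n ω) x r R k} ≤ ε) :
    IsTightMeasureSet {μ | ∃ n, ((q n).map fun ω => Curve.mk (γ n ω)).toMeasure = μ} := by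
  refine tight_of_cross q γ hb hΛ ?_
  intro x r R hr hΛR hR ε hε
  obtain ⟨k, hk⟩ := h x r R hr hΛR hR ε hε
  obtain ⟨N, hN⟩ := eventually_atTop.1 hk
  -- finitely many curves before `N`
  have h1 : ∀ n, ∃ l : ℕ, (q n).toOuterMeasure {ω | Cross (γ n ω) x r R l} = 0 := by
    intro n
    choose K hK using fun ω => exists_not_cross (γ n ω) x hR
    refine ⟨(hfin n).toFinset.sup K, ?_⟩
    rw [PMF.toOuterMeasure_apply_eq_zero_iff, Set.disjoint_left]
    intro ω hω hc
    refine hK ω (Cross.mono ?_ hc)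
    exact Finset.le_sup (by simpa using hω)
  choose l hl using h1
  refine ⟨max k ((Finset.range N).sup l), fun n => ?_⟩
  by_cases hn : N ≤ n
  · refine le_trans (measure_mono fun ω hω => ?_) (hN n hn)
    exact Cross.mono (le_max_left _ _) hω
  · refine le_trans (measure_mono fun ω hω => ?_) ((hl n).le.trans zero_le)
    refine Cross.mono (le_trans ?_ (le_max_right _ _)) hω
    exact Finset.le_sup (Finset.mem_range.2 (by omega))

end Pool.Agent.H57.Q1
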